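import Pool.Agent.P8H73.Pk.Hold

/-!
# The concrete points `exp (i x)`, `x = 4 ^ (-k) / 2 * (1 + j / N_k)`
-/

set_option autoImplicit false

open Complex Filter Topology Metric Set

namespace Pool.Agent.P8H73.Pk

/-- upper bound for chords -/
lemma chord_le (x y : ℝ) :
    ‖Complex.exp ((x : ℂ) * I) - Complex.exp ((y : ℂ) * I)‖ ≤ |x - y| := by
  have h1 : Complex.exp ((x : ℂ) * I) - Complex.exp ((y : ℂ) * I) =
      Complex.exp ((y : ℂ) * I) * (Complex.exp (I * ((x - y : ℝ) : ℂ)) - 1) := by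
    rw [mul_sub, ← Complex.exp_add, mul_one]
    congr 2
    push_cast
    ring
  rw [h1, norm_mul, Complex.norm_exp_ofReal_mul_I, one_mul]
  have := Real.norm_exp_I_mul_ofReal_sub_one_le (x := x - y)
  rwa [Real.norm_eq_abs] at this

/-- lower bound for chords -/
lemma chord_ge {x y : ℝ} (h : |x - y| ≤ 1) :
    |x - y| / 2 ≤ ‖Complex.exp ((x : ℂ) * I) - Complex.exp ((y : ℂ) * I)‖ := by
  have h1 : Complex.exp ((x : ℂ) * I) - Complex.exp ((y : ℂ) * I) =
      Complex.exp ((y : ℂ) * I) * (Complex.exp (I * ((x - y : ℝ) : ℂ)) - 1) := by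
    rw [mul_sub, ← Complex.exp_add, mul_one]
    congr 2
    push_cast
    ring
  rw [h1, norm_mul, Complex.norm_exp_ofReal_mul_I, one_mul, Complex.norm_exp_I_mul_ofReal_sub_one,
    norm_mul, Real.norm_eq_abs, Real.norm_eq_abs]
  have h2 : |Real.sin ((x - y) / 2)| = Real.sin (|x - y| / 2) := by
    rcases le_total 0 (x - y) with h0 | h0
    · rw [abs_of_nonneg h0] at h ⊢
      apply abs_of_nonneg
      apply Real.sin_nonneg_of_nonneg_of_le_pi
      · linarith
      · linarith [Real.pi_gt_three]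
    · rw [abs_of_nonpos h0] at h ⊢
      have : Real.sin ((x - y) / 2) = -Real.sin (-(x - y) / 2) := by
        rw [← Real.sin_neg]; congr 1; ring
      rw [this, abs_neg]
      apply abs_of_nonneg
      apply Real.sin_nonneg_of_nonneg_of_le_pi
      · linarith
      · linarith [Real.pi_gt_three]
  rw [h2]
  have h3 := Real.mul_le_sin (x := |x - y| / 2) (by positivity)
    (by linarith [Real.pi_gt_three])
  have h4 : 1 / 2 ≤ 2 / Real.pi := by
    rw [div_le_div_iff₀ (by norm_num) Real.pi_pos]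
    linarith [Real.pi_le_four]
  have h5 : 0 ≤ |x - y| := abs_nonneg _
  rw [abs_of_pos (by norm_num : (0 : ℝ) < 2)]
  nlinarith [mul_le_mul_of_nonneg_right h4 (by positivity : 0 ≤ |x - y| / 2)]

/-- `4 ^ ((1 - α) / α)` -/
noncomputable def lam (α : ℝ) : ℝ := (4 : ℝ) ^ ((1 - α) / α)

/-- `(k + 1) ^ (-1/α)` -/
noncomputable def eps (α : ℝ) (k : ℕ) : ℝ := ((k : ℝ) + 1) ^ (-(1 / α))

/-- the number of points in the block `k` -/
noncomputable def NN (α : ℝ) (k : ℕ) : ℕ := ⌈lam α ^ k * eps α k⌉₊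

/-- the arguments of the points -/
noncomputable def xx (α : ℝ) (n : Σ k : ℕ, Fin (NN α k)) : ℝ :=
  (1 / 4 : ℝ) ^ n.1 / 2 * (1 + (n.2 : ℝ) / NN α n.1)

/-- the points -/
noncomputable def zz (α : ℝ) (n : Σ k : ℕ, Fin (NN α k)) : ℂ :=
  Complex.exp ((xx α n : ℂ) * I)

section
variable {α : ℝ} (hα0 : 0 < α) (hα1 : α < 1)
include hα0 hα1

lemma lam_gt : 1 < lam α := by
  unfold lam
  exact Real.one_lt_rpow (by norm_num) (div_pos (by linarith) hα0)

omit hα0 hα1 in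
lemma eps_pos (k : ℕ) : 0 < eps α k := by unfold eps; positivity

omit hα1 in
lemma eps_le (k : ℕ) : eps α k ≤ 1 := by
  unfold eps
  apply Real.rpow_le_one_of_one_le_of_nonpos
  · have : (0 : ℝ) ≤ k := Nat.cast_nonneg k
    linarith
  · have : 0 < 1 / α := by positivity
    linarith

lemma eps_mul_le (k : ℕ) : eps α k * ((k : ℝ) + 1) ≤ 1 := by
  unfold eps
  have hk : (0 : ℝ) ≤ k := Nat.cast_nonneg k
  rw [← Real.rpow_add_one (by positivity)]
  apply Real.rpow_le_one_of_one_le_of_nonpos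
  · linarith
  · have : 1 ≤ 1 / α := by rw [le_div_iff₀ hα0]; linarith
    linarith

lemma NN_pos (k : ℕ) : 0 < NN α k := by
  unfold NN
  rw [Nat.ceil_pos]
  have := lam_gt hα0 hα1
  have := eps_pos (α := α) k
  positivity

lemma NN_ge (k : ℕ) : lam α ^ k * eps α k ≤ NN α k := Nat.le_ceil _

lemma NN_le (k : ℕ) : (NN α k : ℝ) ≤ lam α ^ k * eps α k + 1 := by
  unfold NN
  have h1 := lam_gt hα0 hα1
  have h2 := eps_pos (α := α) k
  exact (Nat.ceil_lt_add_one (by positivity)).le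

lemma NN_le' (k : ℕ) : (NN α k : ℝ) ≤ 2 * lam α ^ k := by
  have h1 := NN_le hα0 hα1 k
  have h2 := eps_le hα0 k
  have h3 : 1 ≤ lam α ^ k := one_le_pow₀ (lam_gt hα0 hα1).le
  nlinarith

lemma NN_div_le (k : ℕ) : (NN α k : ℝ) / lam α ^ k ≤ eps α k + (1 / lam α) ^ k := by
  have h1 := lam_gt hα0 hα1
  have h3 : 0 < lam α ^ k := by positivity
  rw [div_le_iff₀ h3, add_mul, one_div, inv_pow, inv_mul_cancel₀ h3.ne']
  have := NN_le hα0 hα1 k
  linarith

omit hα1 in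
lemma xx_pos (n : Σ k : ℕ, Fin (NN α k)) : 0 < xx α n := by unfold xx; positivity

omit hα0 hα1 in
lemma frac_lt (n : Σ k : ℕ, Fin (NN α k)) : (n.2 : ℝ) / NN α n.1 < 1 := by
  have h0 : 0 < NN α n.1 := lt_of_le_of_lt (Nat.zero_le _) n.2.2
  have h1 : (0 : ℝ) < NN α n.1 := by exact_mod_cast h0
  rw [div_lt_one h1]
  exact_mod_cast n.2.2

omit hα0 hα1 in
lemma xx_lt (n : Σ k : ℕ, Fin (NN α k)) : xx α n < (1 / 4 : ℝ) ^ n.1 := by
  have h1 := frac_lt n
  have h2 : (0 : ℝ) < (1 / 4 : ℝ) ^ n.1 := by positivity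
  unfold xx
  nlinarith

omit hα0 hα1 in
lemma xx_ge (n : Σ k : ℕ, Fin (NN α k)) : (1 / 4 : ℝ) ^ n.1 / 2 ≤ xx α n := by
  have h1 : (0 : ℝ) ≤ (n.2 : ℝ) / NN α n.1 := by positivity
  have h2 : (0 : ℝ) < (1 / 4 : ℝ) ^ n.1 := by positivity
  unfold xx
  nlinarith

omit hα0 hα1 in
lemma xx_le_one (n : Σ k : ℕ, Fin (NN α k)) : xx α n ≤ 1 :=
  (xx_lt n).le.trans (pow_le_one₀ (by norm_num) (by norm_num))

omit hα0 hα1 in
/-- points of different blocks -/
lemma xx_sep {m n : Σ k : ℕ, Fin (NN α k)} (h : m.1 ≠ n.1) : xx α m / 2 ≤ |xx α n - xx α m| := by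
  rcases lt_or_gt_of_ne h with h1 | h1
  · -- `m` is in an earlier block: `xx m` is larger
    have h2 : (1 / 4 : ℝ) ^ n.1 ≤ (1 / 4 : ℝ) ^ (m.1 + 1) :=
      pow_le_pow_of_le_one (by norm_num) (by norm_num) h1
    rw [pow_succ] at h2
    have h3 := xx_lt n
    have h4 := xx_ge m
    rw [abs_sub_comm]
    refine le_trans ?_ (le_abs_self _)
    linarith
  · have h2 : (1 / 4 : ℝ) ^ m.1 ≤ (1 / 4 : ℝ) ^ (n.1 + 1) :=
      pow_le_pow_of_le_one (by norm_num) (by norm_num) h1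
    rw [pow_succ] at h2
    have h3 := xx_lt m
    have h4 := xx_ge n
    have h5 : (0 : ℝ) < (1 / 4 : ℝ) ^ m.1 := by positivity
    refine le_trans ?_ (le_abs_self _)
    linarith

lemma xx_inj : Function.Injective (xx α) := by
  rintro ⟨k, j⟩ ⟨l, i⟩ h
  by_cases hkl : k = l
  · subst hkl
    have hN : (0 : ℝ) < NN α k := by exact_mod_cast NN_pos hα0 hα1 k
    have h2 : (0 : ℝ) < (1 / 4 : ℝ) ^ k := by positivity
    unfold xx at h
    have h3 : (1 + (j : ℝ) / NN α k) = (1 + (i : ℝ) / NN α k) :=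
      mul_left_cancel₀ (by positivity) h
    have h4 : (j : ℝ) = i := by
      have : (j : ℝ) / NN α k = (i : ℝ) / NN α k := by linarith
      field_simp at this
      exact this
    have h5 : j = i := Fin.ext (by exact_mod_cast h4)
    rw [h5]
  · exfalso
    have h1 := xx_sep (m := ⟨k, j⟩) (n := ⟨l, i⟩) hkl
    rw [h, sub_self, abs_zero] at h1
    have h2 := xx_pos hα0 (⟨l, i⟩ : Σ k : ℕ, Fin (NN α k))
    linarith

omit hα1 in
lemma abs_xx_sub (m n : Σ k : ℕ, Fin (NN α k)) : |xx α n - xx α m| ≤ 1 := by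
  have h1 := xx_pos hα0 m
  have h2 := xx_pos hα0 n
  have h3 := xx_le_one m
  have h4 := xx_le_one n
  rw [abs_le]
  constructor <;> linarith

omit hα0 hα1 in
lemma one_sub_le (n : Σ k : ℕ, Fin (NN α k)) : ‖1 - zz α n‖ ≤ xx α n := by
  have h1 := chord_le 0 (xx α n)
  simp only [Complex.ofReal_zero, zero_mul, Complex.exp_zero, zero_sub, abs_neg] at h1
  have h2 : 0 ≤ xx α n := by unfold xx; positivity
  rwa [abs_of_nonneg h2] at h1

lemma wt_zz_le (n : Σ k : ℕ, Fin (NN α k)) : wt α (zz α) n ≤ (1 / lam α) ^ n.1 := by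
  unfold wt
  have hp : 0 ≤ (1 - α) / α := div_nonneg (by linarith) hα0.le
  calc ‖1 - zz α n‖ ^ ((1 - α) / α) ≤ ((1 / 4 : ℝ) ^ n.1) ^ ((1 - α) / α) :=
        Real.rpow_le_rpow (norm_nonneg _) ((one_sub_le n).trans (xx_lt n).le) hp
    _ = (1 / lam α) ^ n.1 := by
        unfold lam
        rw [← Real.rpow_natCast, ← Real.rpow_mul (by norm_num), mul_comm,
          Real.rpow_mul (by norm_num), Real.rpow_natCast, Real.div_rpow (by norm_num)
          (by norm_num), Real.one_rpow]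

end

end Pool.Agent.P8H73.Pk
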