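import Pool.Agent.P8H73.Pk.Conc

/-!
# The concrete points satisfy the conditions
-/

set_option autoImplicit false

open Complex Filter Topology Metric Set

namespace Pool.Agent.P8H73.Pk

lemma harm_le (N : ℕ) : ∑ i ∈ Finset.range N, (1 : ℝ) / ((i : ℝ) + 1) ≤ 1 + Real.log N := by
  have h := harmonic_le_one_add_log N
  have h2 : ((harmonic N : ℚ) : ℝ) = ∑ i ∈ Finset.range N, (1 : ℝ) / ((i : ℝ) + 1) := by
    unfold harmonic
    push_cast
    refine Finset.sum_congr rfl fun i _ => ?_
    rw [one_div]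
  rwa [h2] at h

/-- the sum over the other points of a block -/
lemma block_sum (N i : ℕ) (hi : i < N) :
    ∑ j ∈ Finset.range N, (if j = i then 0 else 1 / |(j : ℝ) - i|) ≤ 2 * (1 + Real.log N) := by
  have hsplit : ∑ j ∈ Finset.range N, (if j = i then 0 else 1 / |(j : ℝ) - i|) =
      ∑ j ∈ Finset.range i, (if j = i then 0 else 1 / |(j : ℝ) - i|) +
      ∑ j ∈ Finset.Ico i N, (if j = i then 0 else 1 / |(j : ℝ) - i|) := by
    rw [← Finset.sum_range_add_sum_Ico _ hi.le]
  have h1 : ∑ j ∈ Finset.range i, (if j = i then 0 else 1 / |(j : ℝ) - i|) =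
      ∑ j ∈ Finset.range i, (1 : ℝ) / ((j : ℝ) + 1) := by
    rw [← Finset.sum_range_reflect]
    refine Finset.sum_congr rfl fun j hj => ?_
    have hji : j < i := Finset.mem_range.1 hj
    have h2 : i - 1 - j ≠ i := by omega
    rw [if_neg h2]
    have h3 : ((i - 1 - j : ℕ) : ℝ) = (i : ℝ) - 1 - j := by
      rw [Nat.cast_sub (by omega), Nat.cast_sub (by omega)]
      simp
    rw [h3]
    have h4 : (i : ℝ) - 1 - j - i = -((j : ℝ) + 1) := by ring
    rw [h4, abs_neg, abs_of_pos (by positivity)]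
  have h2 : ∑ j ∈ Finset.Ico i N, (if j = i then 0 else 1 / |(j : ℝ) - i|) ≤
      ∑ j ∈ Finset.range N, (1 : ℝ) / ((j : ℝ) + 1) := by
    rw [Finset.sum_Ico_eq_sum_range]
    have h3 : N - i = (N - i - 1) + 1 := by omega
    rw [h3, Finset.sum_range_succ']
    have h4 : ∀ j ∈ Finset.range (N - i - 1),
        (if i + (j + 1) = i then (0 : ℝ) else 1 / |((i + (j + 1) : ℕ) : ℝ) - i|) =
        1 / ((j : ℝ) + 1) := by
      intro j _
      rw [if_neg (by omega)]
      push_cast
      have : (i : ℝ) + (j + 1) - i = (j : ℝ) + 1 := by ring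
      rw [this, abs_of_pos (by positivity)]
    rw [Finset.sum_congr rfl h4]
    simp only [add_zero, if_true]
    refine Finset.sum_le_sum_of_subset_of_nonneg ?_ fun j _ _ => by positivity
    intro j hj
    rw [Finset.mem_range] at hj ⊢
    omega
  have h3 : ∑ j ∈ Finset.range i, (1 : ℝ) / ((j : ℝ) + 1) ≤
      ∑ j ∈ Finset.range N, (1 : ℝ) / ((j : ℝ) + 1) := by
    refine Finset.sum_le_sum_of_subset_of_nonneg ?_ fun j _ _ => by positivity
    intro j hj
    rw [Finset.mem_range] at hj ⊢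
    omega
  have h4 := harm_le N
  rw [hsplit, h1]
  linarith

section
variable {α : ℝ} (hα0 : 0 < α) (hα1 : α < 1)
include hα0 hα1

lemma summable_eps : Summable (eps α) := by
  have h1 : Summable fun n : ℕ => ((n : ℝ)) ^ (-(1 / α)) := by
    rw [Real.summable_nat_rpow]
    have : 1 < 1 / α := by rw [lt_div_iff₀ hα0]; linarith
    linarith
  have h2 := (summable_nat_add_iff 1).2 h1
  refine h2.congr fun n => ?_
  unfold eps
  push_cast
  rfl

lemma summable_geo : Summable fun k : ℕ => (1 / lam α) ^ k := by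
  have h1 := lam_gt hα0 hα1
  apply summable_geometric_of_lt_one (by positivity)
  rw [div_lt_one (by linarith)]
  exact h1

/-- the bound for the sums over the blocks -/
lemma blocks_le (K : ℕ) : ∑ k ∈ Finset.range K, (NN α k : ℝ) * (1 / lam α) ^ k ≤
    ∑' k, (eps α k + (1 / lam α) ^ k) := by
  have hs : Summable fun k => eps α k + (1 / lam α) ^ k :=
    (summable_eps hα0 hα1).add (summable_geo hα0 hα1)
  have h1 := lam_gt hα0 hα1
  refine le_trans (Finset.sum_le_sum fun k _ => ?_) (hs.sum_le_tsum (Finset.range K) fun k _ => ?_)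
  · have := NN_div_le hα0 hα1 k
    rwa [div_eq_mul_inv, ← one_div, ← one_div_pow] at this
  · have := eps_pos (α := α) k
    positivity

lemma sum_sigma_le {f : (Σ k : ℕ, Fin (NN α k)) → ℝ} (hf : ∀ n, 0 ≤ f n)
    (t : Finset (Σ k : ℕ, Fin (NN α k))) :
    ∃ K : ℕ, ∑ n ∈ t, f n ≤ ∑ k ∈ Finset.range K, ∑ j : Fin (NN α k), f ⟨k, j⟩ := by
  classical
  refine ⟨t.sup (fun n => n.1) + 1, ?_⟩
  rw [← Finset.sum_sigma (Finset.range (t.sup (fun n => n.1) + 1)) (fun k => Finset.univ) f]
  refine Finset.sum_le_sum_of_subset_of_nonneg ?_ fun n _ _ => hf n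
  intro n hn
  rw [Finset.mem_sigma, Finset.mem_range]
  exact ⟨Nat.lt_succ_of_le (Finset.le_sup (f := fun n : (Σ k : ℕ, Fin (NN α k)) => n.1) hn),
    Finset.mem_univ _⟩

lemma tot_le (t : Finset (Σ k : ℕ, Fin (NN α k))) :
    ∑ n ∈ t, wt α (zz α) n ≤ ∑' k, (eps α k + (1 / lam α) ^ k) := by
  obtain ⟨K, hK⟩ := sum_sigma_le hα0 hα1 (f := wt α (zz α)) (fun n => by unfold wt; positivity) t
  refine hK.trans (le_trans (Finset.sum_le_sum fun k _ => ?_) (blocks_le hα0 hα1 K))
  calc ∑ j : Fin (NN α k), wt α (zz α) ⟨k, j⟩ ≤ ∑ j : Fin (NN α k), (1 / lam α) ^ k :=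
        Finset.sum_le_sum fun j _ => wt_zz_le hα0 hα1 ⟨k, j⟩
    _ = _ := by simp

/-- the own block -/
lemma own_le : ∃ C : ℝ, 0 ≤ C ∧ ∀ l : ℕ,
    (1 / lam α) ^ l * NN α l * (1 + Real.log (NN α l)) ≤ C := by
  have h1 := lam_gt hα0 hα1
  have hlog : 0 ≤ Real.log (lam α) := Real.log_nonneg h1.le
  set L := Real.log (lam α) with hL
  refine ⟨(2 + L) + (2 + L * (1 / (lam α - 1))), ?_, fun l => ?_⟩
  · have : 0 < lam α - 1 := by linarith
    positivity
  · have hNpos : (0 : ℝ) < NN α l := by exact_mod_cast NN_pos hα0 hα1 l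
    have hlampow : 0 < lam α ^ l := by positivity
    have h2 : Real.log (NN α l) ≤ 1 + l * L := by
      calc Real.log (NN α l) ≤ Real.log (2 * lam α ^ l) :=
            Real.log_le_log hNpos (NN_le' hα0 hα1 l)
        _ = Real.log 2 + l * L := by
            rw [Real.log_mul (by norm_num) hlampow.ne', Real.log_pow]
        _ ≤ 1 + l * L := by
            have : Real.log 2 < 1 := by
              have := Real.log_two_lt_d9
              linarith
            linarith
    have h3 : (1 / lam α) ^ l * NN α l ≤ eps α l + (1 / lam α) ^ l := by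
      have := NN_div_le hα0 hα1 l
      rwa [div_eq_mul_inv, ← one_div, ← one_div_pow, mul_comm] at this
    have hε := eps_pos (α := α) l
    have hε1 := eps_le hα0 l
    have hε2 := eps_mul_le hα0 hα1 l
    have hl : (0 : ℝ) ≤ l := Nat.cast_nonneg l
    have hg0 : 0 < (1 / lam α) ^ l := by positivity
    have hg1 : (1 / lam α) ^ l ≤ 1 := by
      apply pow_le_one₀ (by positivity)
      rw [div_le_one (by linarith)]
      exact h1.le
    have hg2 : (1 / lam α) ^ l * l ≤ 1 / (lam α - 1) := by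
      have hb := one_add_mul_le_pow (a := lam α - 1) (by linarith) l
      have e1 : 1 + (lam α - 1) = lam α := by ring
      rw [e1] at hb
      rw [one_div_pow, le_div_iff₀ (by linarith), div_mul_eq_mul_div, div_mul_eq_mul_div,
        div_le_one hlampow]
      linarith
    calc (1 / lam α) ^ l * NN α l * (1 + Real.log (NN α l))
        ≤ (1 / lam α) ^ l * NN α l * (2 + l * L) :=
          mul_le_mul_of_nonneg_left (by linarith) (by positivity)
      _ ≤ (eps α l + (1 / lam α) ^ l) * (2 + l * L) :=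
          mul_le_mul_of_nonneg_right h3 (by positivity)
      _ = (2 * eps α l + (eps α l * l) * L) +
          (2 * (1 / lam α) ^ l + L * ((1 / lam α) ^ l * l)) := by ring
      _ ≤ (2 + L) + (2 + L * (1 / (lam α - 1))) := by
          have h4 : eps α l * l ≤ 1 := by nlinarith
          have h5 : (eps α l * l) * L ≤ 1 * L := mul_le_mul_of_nonneg_right h4 hlog
          have h6 : L * ((1 / lam α) ^ l * l) ≤ L * (1 / (lam α - 1)) :=
            mul_le_mul_of_nonneg_left hg2 hlog
          linarith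

lemma zz_sub_ge (m n : Σ k : ℕ, Fin (NN α k)) :
    |xx α n - xx α m| / 2 ≤ ‖zz α n - zz α m‖ := chord_ge (abs_xx_sub hα0 m n)

open Classical in
lemma sep_le : ∃ C : ℝ, 0 ≤ C ∧ ∀ (m : Σ k : ℕ, Fin (NN α k))
    (t : Finset (Σ k : ℕ, Fin (NN α k))), m ∉ t →
    ‖1 - zz α m‖ * ∑ n ∈ t, wt α (zz α) n / ‖zz α n - zz α m‖ ≤
      4 * (∑' k, (eps α k + (1 / lam α) ^ k)) + 8 * C := by
  obtain ⟨C, hC0, hC⟩ := own_le hα0 hα1
  refine ⟨C, hC0, fun m t hmt => ?_⟩
  have hlam := lam_gt hα0 hα1
  have hxm := xx_pos hα0 m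
  set f : (Σ k : ℕ, Fin (NN α k)) → ℝ := fun n =>
    if n = m then 0 else xx α m * (wt α (zz α) n / ‖zz α n - zz α m‖) with hf
  have hwt0 : ∀ n, 0 ≤ wt α (zz α) n := fun n => by unfold wt; positivity
  have hf0 : ∀ n, 0 ≤ f n := by
    intro n
    simp only [hf]
    split_ifs
    · exact le_refl _
    · have := hwt0 n
      positivity
  have h1 : ‖1 - zz α m‖ * ∑ n ∈ t, wt α (zz α) n / ‖zz α n - zz α m‖ ≤ ∑ n ∈ t, f n := by
    rw [Finset.mul_sum]
    refine Finset.sum_le_sum fun n hn => ?_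
    have hnm : n ≠ m := fun h => hmt (h ▸ hn)
    simp only [hf, if_neg hnm]
    apply mul_le_mul_of_nonneg_right (one_sub_le m)
    have := hwt0 n
    positivity
  refine h1.trans ?_
  obtain ⟨K, hK⟩ := sum_sigma_le hα0 hα1 hf0 t
  refine hK.trans ?_
  -- the single blocks
  have hblock : ∀ k, ∑ j : Fin (NN α k), f ⟨k, j⟩ ≤
      4 * ((NN α k : ℝ) * (1 / lam α) ^ k) + (if k = m.1 then 8 * C else 0) := by
    intro k
    by_cases hk : k = m.1
    · obtain ⟨l, i⟩ := m
      simp only at hk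
      subst hk
      rw [if_pos rfl]
      have hN : (0 : ℝ) < NN α k := by exact_mod_cast NN_pos hα0 hα1 k
      have hg0 : 0 < (1 / lam α) ^ k := by positivity
      have hterm : ∀ j : Fin (NN α k), f ⟨k, j⟩ ≤
          (4 * (1 / lam α) ^ k * NN α k) *
            (if (j : ℕ) = (i : ℕ) then 0 else 1 / |((j : ℕ) : ℝ) - (i : ℕ)|) := by
        intro j
        by_cases hji : j = i
        · subst hji
          simp [hf]
        · have hji' : (j : ℕ) ≠ (i : ℕ) := fun h => hji (Fin.ext h)
          have hne : (⟨k, j⟩ : Σ k : ℕ, Fin (NN α k)) ≠ ⟨k, i⟩ := by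
            intro h
            apply hji
            simpa using h
          simp only [hf, if_neg hne, if_neg hji']
          have hsub : |xx α ⟨k, j⟩ - xx α ⟨k, i⟩| =
              (1 / 4 : ℝ) ^ k / 2 / NN α k * |((j : ℕ) : ℝ) - (i : ℕ)| := by
            have e : xx α ⟨k, j⟩ - xx α ⟨k, i⟩ =
                (1 / 4 : ℝ) ^ k / 2 / NN α k * (((j : ℕ) : ℝ) - (i : ℕ)) := by
              unfold xx
              simp only
              field_simp
              ring
            rw [e, abs_mul, abs_of_pos (by positivity)]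
          have habs : 0 < |((j : ℕ) : ℝ) - (i : ℕ)| := by
            rw [abs_pos, sub_ne_zero]
            exact_mod_cast hji'
          have hge := zz_sub_ge hα0 hα1 (⟨k, i⟩ : Σ k : ℕ, Fin (NN α k)) ⟨k, j⟩
          rw [hsub] at hge
          have hpos : 0 < (1 / 4 : ℝ) ^ k / 2 / NN α k * |((j : ℕ) : ℝ) - (i : ℕ)| / 2 := by
            positivity
          have hw := wt_zz_le hα0 hα1 (⟨k, j⟩ : Σ k : ℕ, Fin (NN α k))
          have hx : xx α ⟨k, i⟩ ≤ (1 / 4 : ℝ) ^ k :=
            (xx_lt (⟨k, i⟩ : Σ k : ℕ, Fin (NN α k))).le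
          have hwt := hwt0 ⟨k, j⟩
          calc xx α ⟨k, i⟩ * (wt α (zz α) ⟨k, j⟩ / ‖zz α ⟨k, j⟩ - zz α ⟨k, i⟩‖)
              ≤ (1 / 4 : ℝ) ^ k * ((1 / lam α) ^ k /
                  ((1 / 4 : ℝ) ^ k / 2 / NN α k * |((j : ℕ) : ℝ) - (i : ℕ)| / 2)) := by
                apply mul_le_mul hx _ (by positivity) (by positivity)
                exact div_le_div₀ (by positivity) hw hpos hge
            _ = 4 * (1 / lam α) ^ k * NN α k * (1 / |((j : ℕ) : ℝ) - (i : ℕ)|) := by
                field_simp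
                ring
      have h2 : ∑ j : Fin (NN α k), f ⟨k, j⟩ ≤ (4 * (1 / lam α) ^ k * NN α k) *
          (2 * (1 + Real.log (NN α k))) := by
        refine (Finset.sum_le_sum fun j _ => hterm j).trans ?_
        rw [← Finset.mul_sum]
        apply mul_le_mul_of_nonneg_left _ (by positivity)
        have := block_sum (NN α k) i i.2
        rwa [Finset.sum_range] at this
      have h3 := hC k
      have h4 : 0 ≤ 4 * ((NN α k : ℝ) * (1 / lam α) ^ k) := by positivity
      calc ∑ j : Fin (NN α k), f ⟨k, j⟩ ≤ (4 * (1 / lam α) ^ k * NN α k) *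
          (2 * (1 + Real.log (NN α k))) := h2
        _ = 8 * ((1 / lam α) ^ k * NN α k * (1 + Real.log (NN α k))) := by ring
        _ ≤ 8 * C := by linarith
        _ ≤ _ := by linarith
    · rw [if_neg hk, add_zero]
      have hterm : ∀ j : Fin (NN α k), f ⟨k, j⟩ ≤ 4 * (1 / lam α) ^ k := by
        intro j
        have hne : (⟨k, j⟩ : Σ k : ℕ, Fin (NN α k)) ≠ m := by
          intro h
          apply hk
          rw [← h]
        simp only [hf, if_neg hne]
        have hsep := xx_sep (m := m) (n := ⟨k, j⟩) (fun h => hk h.symm)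
        have hge := zz_sub_ge hα0 hα1 m ⟨k, j⟩
        have h5 : xx α m / 4 ≤ ‖zz α ⟨k, j⟩ - zz α m‖ := by linarith
        have hw := wt_zz_le hα0 hα1 (⟨k, j⟩ : Σ k : ℕ, Fin (NN α k))
        have hwt := hwt0 ⟨k, j⟩
        calc xx α m * (wt α (zz α) ⟨k, j⟩ / ‖zz α ⟨k, j⟩ - zz α m‖)
            ≤ xx α m * ((1 / lam α) ^ k / (xx α m / 4)) := by
              apply mul_le_mul_of_nonneg_left _ hxm.le
              exact div_le_div₀ (by positivity) hw (by positivity) h5
          _ = 4 * (1 / lam α) ^ k := by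
              field_simp
      calc ∑ j : Fin (NN α k), f ⟨k, j⟩ ≤ ∑ j : Fin (NN α k), 4 * (1 / lam α) ^ k :=
            Finset.sum_le_sum fun j _ => hterm j
        _ = 4 * ((NN α k : ℝ) * (1 / lam α) ^ k) := by
            rw [Finset.sum_const, Finset.card_univ, Fintype.card_fin, nsmul_eq_mul]
            ring
  refine (Finset.sum_le_sum fun k _ => hblock k).trans ?_
  rw [Finset.sum_add_distrib, ← Finset.mul_sum]
  have h2 := blocks_le hα0 hα1 K
  have h3 : ∑ k ∈ Finset.range K, (if k = m.1 then 8 * C else 0) ≤ 8 * C := by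
    rw [Finset.sum_ite_eq']
    split_ifs
    · exact le_refl _
    · positivity
  linarith

/-- all conditions hold -/
theorem exists_sys : ∃ η M : ℝ, Sys α (zz α) η M := by
  obtain ⟨C, hC0, hC⟩ := sep_le hα0 hα1
  set M0 := ∑' k, (eps α k + (1 / lam α) ^ k) with hM0
  have hM00 : 0 ≤ M0 := by
    have hlam := lam_gt hα0 hα1
    apply tsum_nonneg
    intro k
    have := eps_pos (α := α) k
    positivity
  set M := 4 * M0 + 8 * C + 1 with hM
  have hMpos : 1 ≤ M := by linarith
  refine ⟨1 / (20 * M), M, ?_⟩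
  have hzinj : Function.Injective (zz α) := by
    intro m n h
    apply xx_inj hα0 hα1
    have h1 := zz_sub_ge hα0 hα1 m n
    rw [h, sub_self, norm_zero] at h1
    have h2 : |xx α n - xx α m| = 0 := le_antisymm (by linarith) (abs_nonneg _)
    have := abs_eq_zero.1 h2
    linarith
  refine
    { hα0 := hα0, hα1 := hα1, norm := fun n => ?_, ne := fun n h => ?_, inj := hzinj,
      ne' := ⟨⟨0, ⟨0, NN_pos hα0 hα1 0⟩⟩⟩, hη := by positivity, hη1 := ?_, hM := ?_,
      tot := fun t => ?_, sep := fun m t hmt => ?_ }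
  · exact Complex.norm_exp_ofReal_mul_I _
  · have h1 := xx_pos hα0 n
    have h2 : |xx α n - 0| / 2 ≤ ‖Complex.exp ((xx α n : ℂ) * I) -
        Complex.exp (((0 : ℝ) : ℂ) * I)‖ := chord_ge (by
      rw [sub_zero, abs_of_pos h1]
      exact xx_le_one n)
    have h3 : Complex.exp ((xx α n : ℂ) * I) = 1 := h
    rw [h3] at h2
    simp only [Complex.ofReal_zero, zero_mul, Complex.exp_zero, sub_self, norm_zero,
      sub_zero] at h2
    rw [abs_of_pos h1] at h2
    linarith
  · rw [div_le_one (by positivity)]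
    linarith
  · have : (0 : ℝ) < M := by linarith
    rw [← mul_assoc]
    field_simp
    exact le_refl _
  · have := tot_le hα0 hα1 t
    linarith
  · have := hC m t hmt
    linarith

end

end Pool.Agent.P8H73.Pk
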