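import Mathlib

/-!
# Peak sets for the analytic Lipschitz classes and zero sets of the Gevrey classes: definitions
-/

set_option autoImplicit false

open Filter Topology Metric

namespace Pool.Agent.P8H73.Pk

/-- The class `A_α`: the functions which are analytic in the open unit disc, continuous on the
closed unit disc, and Lipschitz of order `α` on the unit circle. -/
def IsInA (α : ℝ) (f : ℂ → ℂ) : Prop :=
  DifferentiableOn ℂ f (ball (0 : ℂ) 1) ∧ ContinuousOn f (closedBall (0 : ℂ) 1) ∧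
    ∃ C : ℝ, ∀ z ∈ sphere (0 : ℂ) 1, ∀ w ∈ sphere (0 : ℂ) 1, ‖f z - f w‖ ≤ C * ‖z - w‖ ^ α

/-- `E` is a peak set for `A_α`: a closed subset of the unit circle such that some `f ∈ A_α`
satisfies `f = 1` on `E` and `|f| < 1` on the rest of the unit circle. -/
def IsPeakSet (α : ℝ) (E : Set ℂ) : Prop :=
  IsClosed E ∧ E ⊆ sphere (0 : ℂ) 1 ∧
    ∃ f : ℂ → ℂ, IsInA α f ∧ (∀ z ∈ E, f z = 1) ∧ ∀ z ∈ sphere (0 : ℂ) 1 \ E, ‖f z‖ < 1

/-- The Gevrey class `G_α`: the functions `f` which are analytic in the open unit disc and satisfy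
`|f⁽ⁿ⁾(z)| ≤ C ^ (n + 1) * (n!) ^ (1 + 1/α)` for all `n` and all `z` of the disc, with a
constant `C`. -/
def IsGevrey (α : ℝ) (f : ℂ → ℂ) : Prop :=
  DifferentiableOn ℂ f (ball (0 : ℂ) 1) ∧
    ∃ C : ℝ, ∀ n : ℕ, ∀ z ∈ ball (0 : ℂ) 1,
      ‖iteratedDeriv n f z‖ ≤ C ^ (n + 1) * (n.factorial : ℝ) ^ (1 + 1 / α)

/-- `E` is a zero set for `G_α`: some `f ∈ G_α`, not identically zero in the disc, has
`f⁽ⁿ⁾ = 0` on `E` for all `n ≥ 0`, in the sense that the continuous extension of `f⁽ⁿ⁾` to the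
closed disc vanishes at every point of `E`. -/
def IsGevreyZeroSet (α : ℝ) (E : Set ℂ) : Prop :=
  ∃ f : ℂ → ℂ, IsGevrey α f ∧ (∃ z ∈ ball (0 : ℂ) 1, f z ≠ 0) ∧
    ∀ n : ℕ, ∀ ζ ∈ E, Tendsto (iteratedDeriv n f) (𝓝[ball (0 : ℂ) 1] ζ) (𝓝 0)

end Pool.Agent.P8H73.Pk
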