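import Pool.Agent.P8H73.Pk.NotZero
import Pool.Agent.P8H73.Pk.Conc2

/-!
# The integrals diverge for the concrete set
-/

set_option autoImplicit false

open Complex Filter Topology Metric Set Real

namespace Pool.Agent.P8H73.Pk

section
variable {α : ℝ} (hα0 : 0 < α) (hα1 : α < 1)
include hα0 hα1

lemma E_compact : IsCompact (EE (zz α)) := by
  obtain ⟨η, M, S⟩ := exists_sys hα0 hα1
  exact S.tendsto_one.isCompact_insert_range_of_cofinite

lemma E_sub : EE (zz α) ⊆ sphere (0 : ℂ) 1 := by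
  obtain ⟨η, M, S⟩ := exists_sys hα0 hα1
  exact S.E_sphere

/-- half of the gap -/
noncomputable def ell (α : ℝ) (k : ℕ) : ℝ := (1 / 4 : ℝ) ^ k / 2 / NN α k

lemma ell_pos (k : ℕ) : 0 < ell α k := by
  have hN : (0 : ℝ) < NN α k := by exact_mod_cast NN_pos hα0 hα1 k
  unfold ell
  positivity

lemma exists_close (k : ℕ) {θ : ℝ} (h1 : (1 / 4 : ℝ) ^ k / 2 ≤ θ) (h2 : θ ≤ (1 / 4 : ℝ) ^ k) :
    ∃ n : Σ k : ℕ, Fin (NN α k), |θ - xx α n| ≤ ell α k := by
  have hN0 := NN_pos hα0 hα1 k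
  have hN : (0 : ℝ) < NN α k := by exact_mod_cast hN0
  have hq : (0 : ℝ) < (1 / 4 : ℝ) ^ k / 2 := by positivity
  set q := (1 / 4 : ℝ) ^ k / 2 with hqdef
  set y := (θ / q - 1) * NN α k with hy
  have hy0 : 0 ≤ y := by
    apply mul_nonneg _ hN.le
    rw [sub_nonneg, le_div_iff₀ hq, one_mul]
    exact h1
  have hyN : y ≤ NN α k := by
    have : θ / q - 1 ≤ 1 := by
      rw [sub_le_iff_le_add, div_le_iff₀ hq]
      have : (1 + 1) * q = (1 / 4 : ℝ) ^ k := by rw [hqdef]; ring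
      rw [this]
      exact h2
    calc y ≤ 1 * NN α k := mul_le_mul_of_nonneg_right this hN.le
      _ = _ := one_mul _
  set j := min ⌊y⌋₊ (NN α k - 1) with hj
  have hjN : j < NN α k := by
    have : j ≤ NN α k - 1 := min_le_right _ _
    omega
  refine ⟨⟨k, ⟨j, hjN⟩⟩, ?_⟩
  have hyj : |y - j| ≤ 1 := by
    have hfl := Nat.floor_le hy0
    have hfl2 := Nat.lt_floor_add_one y
    rcases le_or_gt ⌊y⌋₊ (NN α k - 1) with h | h
    · have : j = ⌊y⌋₊ := min_eq_left h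
      rw [this, abs_le]
      constructor <;> linarith
    · have : j = NN α k - 1 := min_eq_right h.le
      have h3 : (j : ℝ) = (NN α k : ℝ) - 1 := by
        rw [this, Nat.cast_sub (by omega), Nat.cast_one]
      have h4 : (NN α k : ℝ) ≤ (⌊y⌋₊ : ℝ) := by exact_mod_cast (by omega : NN α k ≤ ⌊y⌋₊)
      rw [h3, abs_le]
      constructor <;> linarith
  have e : θ - xx α ⟨k, ⟨j, hjN⟩⟩ = ell α k * (y - j) := by
    unfold xx ell
    simp only [← hqdef]
    rw [hy]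
    field_simp
    ring
  rw [e, abs_mul, abs_of_pos (ell_pos hα0 hα1 k)]
  calc ell α k * |y - j| ≤ ell α k * 1 :=
        mul_le_mul_of_nonneg_left hyj (ell_pos hα0 hα1 k).le
    _ = _ := mul_one _

/-- the contribution of a block -/
lemma block_value (k : ℕ) : 1 / 2 * (1 / ((k : ℝ) + 1)) ≤
    (1 / 4 : ℝ) ^ k / 2 * (2 * ell α k) ^ (-α) := by
  have hN0 := NN_pos hα0 hα1 k
  have hN : (0 : ℝ) < NN α k := by exact_mod_cast hN0
  have hq : (0 : ℝ) < (1 / 4 : ℝ) ^ k := by positivity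
  have hε := eps_pos (α := α) k
  have hlam : 0 < lam α := by linarith [lam_gt hα0 hα1]
  have e1 : 2 * ell α k = (1 / 4 : ℝ) ^ k / NN α k := by
    unfold ell
    field_simp
  have e2 : (2 * ell α k) ^ (-α) = ((1 / 4 : ℝ) ^ k) ^ (-α) * (NN α k : ℝ) ^ α := by
    rw [e1, Real.div_rpow hq.le hN.le, Real.rpow_neg hN.le, div_inv_eq_mul]
  have e3 : (lam α ^ k * eps α k) ^ α ≤ (NN α k : ℝ) ^ α :=
    Real.rpow_le_rpow (by positivity) (NN_ge hα0 hα1 k) hα0.le
  have e4 : (lam α ^ k * eps α k) ^ α = ((4 : ℝ) ^ k) ^ (1 - α) * (1 / ((k : ℝ) + 1)) := by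
    rw [Real.mul_rpow (by positivity) hε.le]
    congr 1
    · unfold lam
      have h40 : (0 : ℝ) ≤ 4 := by norm_num
      rw [← Real.rpow_natCast ((4 : ℝ) ^ ((1 - α) / α)) k, ← Real.rpow_mul h40,
        ← Real.rpow_mul h40, ← Real.rpow_natCast (4 : ℝ) k, ← Real.rpow_mul h40]
      congr 1
      field_simp
    · unfold eps
      rw [← Real.rpow_mul (by positivity)]
      have : -(1 / α) * α = -1 := by field_simp
      rw [this, Real.rpow_neg_one, one_div]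
  rw [e4] at e3
  have h4 : (0 : ℝ) < (4 : ℝ) ^ k := by positivity
  have e5 : (1 / 4 : ℝ) ^ k = ((4 : ℝ) ^ k)⁻¹ := by rw [one_div, inv_pow]
  have e6 : (1 / 4 : ℝ) ^ k * ((1 / 4 : ℝ) ^ k) ^ (-α) * ((4 : ℝ) ^ k) ^ (1 - α) = 1 := by
    rw [e5, Real.inv_rpow h4.le, Real.rpow_neg h4.le, inv_inv, mul_assoc, ← Real.rpow_add h4]
    have : α + (1 - α) = 1 := by ring
    rw [this, Real.rpow_one, inv_mul_cancel₀ h4.ne']
  calc 1 / 2 * (1 / ((k : ℝ) + 1)) = 1 / 2 * (((1 / 4 : ℝ) ^ k * ((1 / 4 : ℝ) ^ k) ^ (-α) *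
        ((4 : ℝ) ^ k) ^ (1 - α)) * (1 / ((k : ℝ) + 1))) := by rw [e6, one_mul]
    _ = (1 / 4 : ℝ) ^ k / 2 * (((1 / 4 : ℝ) ^ k) ^ (-α) *
        (((4 : ℝ) ^ k) ^ (1 - α) * (1 / ((k : ℝ) + 1)))) := by ring
    _ ≤ (1 / 4 : ℝ) ^ k / 2 * (((1 / 4 : ℝ) ^ k) ^ (-α) * (NN α k : ℝ) ^ α) := by
        apply mul_le_mul_of_nonneg_left _ (by positivity)
        apply mul_le_mul_of_nonneg_left e3 (by positivity)
    _ = _ := by rw [e2]

lemma exists_delta (K : ℕ) : ∃ δ : ℝ, 0 < δ ∧ δ ≤ 1 / 2 ∧ ∀ k < K, δ ≤ ell α k := by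
  induction K with
  | zero => exact ⟨1 / 2, by norm_num, le_rfl, fun k hk => absurd hk (Nat.not_lt_zero k)⟩
  | succ K ih =>
    obtain ⟨δ, h0, h1, h2⟩ := ih
    refine ⟨min δ (ell α K), lt_min h0 (ell_pos hα0 hα1 K), (min_le_left _ _).trans h1, ?_⟩
    intro k hk
    rcases Nat.lt_succ_iff_lt_or_eq.1 hk with h | h
    · exact (min_le_left _ _).trans (h2 k h)
    · rw [h]
      exact min_le_right _ _

/-- divergence -/
theorem div_E (B : ℝ) : ∃ r : ℝ, 1 / 2 ≤ r ∧ r < 1 ∧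
    B ≤ ∫ θ in (0 : ℝ)..(2 * π), hh α (EE (zz α)) r θ := by
  have hE := E_compact hα0 hα1
  have hEs := E_sub hα0 hα1
  have hne : (EE (zz α)).Nonempty := Sys.E_nonempty
  have htend := Real.tendsto_sum_range_one_div_nat_succ_atTop
  obtain ⟨K, hK⟩ := (htend.eventually (eventually_ge_atTop (2 * B))).exists
  obtain ⟨δ, hδ0, hδ1, hδ⟩ := exists_delta hα0 hα1 K
  refine ⟨1 - δ, by linarith, by linarith, ?_⟩
  set h := hh α (EE (zz α)) (1 - δ) with hh'
  have hcont : Continuous h := hh_cont hE hEs hne (by linarith) (by linarith)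
  have hnn : ∀ θ, 0 ≤ h θ := fun θ => hh_nonneg _ _
  have hint : ∀ a b, IntervalIntegrable h MeasureTheory.volume a b :=
    fun a b => hcont.intervalIntegrable a b
  have hblock : ∀ k < K, 1 / 2 * (1 / ((k : ℝ) + 1)) ≤
      ∫ θ in ((1 / 4 : ℝ) ^ (k + 1))..((1 / 4 : ℝ) ^ k), h θ := by
    intro k hk
    have hq : (0 : ℝ) < (1 / 4 : ℝ) ^ k := by positivity
    have h1 : ∫ θ in ((1 / 4 : ℝ) ^ k / 2)..((1 / 4 : ℝ) ^ k), h θ ≤
        ∫ θ in ((1 / 4 : ℝ) ^ (k + 1))..((1 / 4 : ℝ) ^ k), h θ := by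
      apply intervalIntegral.integral_mono_interval _ (by linarith) le_rfl
      · exact Filter.Eventually.of_forall hnn
      · exact hint _ _
      · rw [pow_succ]
        linarith
    have h2 : ∫ _θ in ((1 / 4 : ℝ) ^ k / 2)..((1 / 4 : ℝ) ^ k), (2 * ell α k) ^ (-α) ≤
        ∫ θ in ((1 / 4 : ℝ) ^ k / 2)..((1 / 4 : ℝ) ^ k), h θ := by
      apply intervalIntegral.integral_mono_on (by linarith) (by simp) (hint _ _)
      intro θ hθ
      obtain ⟨n, hn⟩ := exists_close hα0 hα1 k hθ.1 hθ.2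
      exact hh_ge hα0 hE hEs hne (by linarith) (by linarith) (x := xx α n)
        (Or.inr ⟨n, rfl⟩) (by linarith [hδ k hk]) hn
    rw [intervalIntegral.integral_const, smul_eq_mul] at h2
    have h3 := block_value hα0 hα1 k
    have h4 : (1 / 4 : ℝ) ^ k - (1 / 4 : ℝ) ^ k / 2 = (1 / 4 : ℝ) ^ k / 2 := by ring
    rw [h4] at h2
    linarith
  have hsum : ∀ L ≤ K, ∑ k ∈ Finset.range L, 1 / 2 * (1 / ((k : ℝ) + 1)) ≤
      ∫ θ in ((1 / 4 : ℝ) ^ L)..1, h θ := by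
    intro L
    induction L with
    | zero => intro _; simp
    | succ L ih =>
      intro hL
      rw [Finset.sum_range_succ, ← intervalIntegral.integral_add_adjacent_intervals
        (hint ((1 / 4 : ℝ) ^ (L + 1)) ((1 / 4 : ℝ) ^ L)) (hint ((1 / 4 : ℝ) ^ L) 1)]
      have h1 := ih (by omega)
      have h2 := hblock L (by omega)
      linarith
  have h1 := hsum K le_rfl
  rw [← Finset.mul_sum] at h1
  have h2 : ∫ θ in ((1 / 4 : ℝ) ^ K)..1, h θ ≤ ∫ θ in (0 : ℝ)..(2 * π), h θ := by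
    apply intervalIntegral.integral_mono_interval (by positivity)
      (pow_le_one₀ (by norm_num) (by norm_num)) (by linarith [Real.pi_gt_three])
    · exact Filter.Eventually.of_forall hnn
    · exact hint _ _
  linarith

/-- the result for `0 < α < 1` -/
theorem main_lt : ∃ E : Set ℂ, IsPeakSet α E ∧ ¬ IsGevreyZeroSet α E := by
  refine ⟨EE (zz α), ?_, ?_⟩
  · obtain ⟨η, M, S⟩ := exists_sys hα0 hα1
    exact S.isPeakSet
  · exact not_zero_of_div hα0 (E_compact hα0 hα1) (E_sub hα0 hα1) Sys.E_nonempty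
      (div_E hα0 hα1)

end

/-- the result -/
theorem main_all (α : ℝ) (hα0 : 0 < α) (hα1 : α ≤ 1) :
    ∃ E : Set ℂ, E.Countable ∧ IsPeakSet α E ∧ ¬ IsGevreyZeroSet α E := by
  rcases hα1.lt_or_eq with h | h
  · refine ⟨EE (zz α), ?_, ?_, ?_⟩
    · exact (countable_range _).insert _
    · obtain ⟨η, M, S⟩ := exists_sys hα0 h
      exact S.isPeakSet
    · exact not_zero_of_div hα0 (E_compact hα0 h) (E_sub hα0 h) Sys.E_nonempty (div_E hα0 h)
  · subst h
    exact ⟨{1}, countable_singleton _, isPeakSet_one, not_zero_one⟩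

end Pool.Agent.P8H73.Pk
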