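import Pool.Agent.P8H73.Pk.Sys

/-!
# The two main estimates for `F`
-/

set_option autoImplicit false

open Complex Filter Topology Metric Set

namespace Pool.Agent.P8H73.Pk

namespace Sys

variable {ι : Type} {α : ℝ} {ζ : ι → ℂ} {η M : ℝ} (S : Sys α ζ η M)
include S

open Classical in
lemma tsum_rest_le {z : ℂ} (hz : z ∈ closedBall (0 : ℂ) 1) (hzE : z ∉ EE ζ) {m : ι}
    (hm : ∀ n, ‖z - ζ m‖ ≤ 2 * ‖z - ζ n‖) :
    AA α η ζ z ≤ 5 / 4 * ‖(1 - z)⁻¹‖ + ‖Fn α η ζ m z‖ := by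
  have h1 := (S.summable_Fn hz hzE).tsum_eq_add_tsum_ite m
  have h2 : ∑' n, (if n = m then 0 else ‖Fn α η ζ n z‖) ≤ 1 / 4 * ‖(1 - z)⁻¹‖ := by
    have hs : Summable fun n => (if n = m then 0 else ‖Fn α η ζ n z‖) := by
      refine Summable.of_nonneg_of_le (fun n => ?_) (fun n => ?_) (S.summable_Fn hz hzE)
      · split_ifs <;> positivity
      · split_ifs
        · positivity
        · exact le_refl _
    refine hs.tsum_le_of_sum_le fun t => ?_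
    have h3 := S.rest_le hz hzE hm (t.erase m) (Finset.notMem_erase m t)
    refine le_trans (le_of_eq ?_) h3
    rw [← Finset.sum_erase (s := t) (a := m) (f := fun n => if n = m then 0 else ‖Fn α η ζ n z‖)
      (by simp)]
    refine Finset.sum_congr rfl fun n hn => ?_
    rw [if_neg (Finset.ne_of_mem_erase hn)]
  unfold AA
  rw [h1]
  linarith

/-- if the term `F_m` is not small then its real part is comparable with it -/
lemma re_ge {z : ℂ} (hz : z ∈ closedBall (0 : ℂ) 1) (hzE : z ∉ EE ζ) (m : ι)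
    (hb : 1 / 2 * ‖(1 - z)⁻¹‖ < ‖Fn α η ζ m z‖) :
    Real.cos (α * (Real.pi / 2)) * (η ^ α / 5) * ‖Fn α η ζ m z‖ ≤ (Fn α η ζ m z).re := by
  have hz1 : 0 < ‖1 - z‖ := norm_pos_iff.2 (sub_ne_zero.2 (ne_one_of hzE).symm)
  have hα0 := S.hα0
  have hα1 := S.hα1
  have hη := S.hη
  have hη1 := S.hη1
  set s := η * wt α ζ m with hs
  have hs0 : 0 < s := S.s_pos m
  have hs1 : s ≤ 1 / 20 := S.s_le m
  have hr := S.r_pos m
  have hT := S.wt_pos m
  have hd := S.dist_pos m hzE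
  set w := 1 - (starRingEnd ℂ) (ζ m) * z with hw
  have hwn : ‖w‖ = ‖z - ζ m‖ := S.w_norm m z
  have hw0 : w ≠ 0 := S.w_ne m hzE
  have hwpos : 0 < ‖w‖ := norm_pos_iff.2 hw0
  have hwre : 0 ≤ w.re := S.w_re m hz
  -- the size of `w`
  have h1 : ‖w‖ ≤ 4 * s * ‖1 - ζ m‖ := by
    have h2 := lt_of_lt_of_le hb (S.Fn_le m hz hzE)
    rw [norm_inv, ← hs, ← hwn] at h2
    have h3 : ‖w‖ < 2 * s * ‖1 - z‖ := by
      rw [lt_div_iff₀ hwpos] at h2
      have h4 : 1 / 2 * ‖1 - z‖⁻¹ * ‖w‖ * (2 * ‖1 - z‖) < s * (2 * ‖1 - z‖) :=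
        mul_lt_mul_of_pos_right h2 (by positivity)
      have h5 : 1 / 2 * ‖1 - z‖⁻¹ * ‖w‖ * (2 * ‖1 - z‖) = ‖w‖ := by
        field_simp
      rw [h5] at h4
      linarith
    have h4 : ‖1 - z‖ ≤ ‖1 - ζ m‖ + ‖w‖ := by
      rw [hwn]
      calc ‖1 - z‖ = ‖(1 - ζ m) - (z - ζ m)‖ := by congr 1; ring
        _ ≤ ‖1 - ζ m‖ + ‖z - ζ m‖ := norm_sub_le _ _
    nlinarith
  -- the quotient of the two parts
  have h2 : ‖w‖ ^ (1 - α) / s ≤ 4 * η ^ (-α) := by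
    rw [div_le_iff₀ hs0]
    have h3 : ‖w‖ ^ (1 - α) ≤ (4 * s * ‖1 - ζ m‖) ^ (1 - α) :=
      Real.rpow_le_rpow hwpos.le h1 (by linarith)
    have h4 : (4 * s * ‖1 - ζ m‖) ^ (1 - α) =
        4 ^ (1 - α) * (s ^ (1 - α) * ‖1 - ζ m‖ ^ (1 - α)) := by
      rw [Real.mul_rpow (by positivity) (by positivity), Real.mul_rpow (by positivity)
        (by positivity), mul_assoc]
    have h5 : (4 : ℝ) ^ (1 - α) ≤ 4 := by
      calc (4 : ℝ) ^ (1 - α) ≤ 4 ^ (1 : ℝ) :=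
            Real.rpow_le_rpow_of_exponent_le (by norm_num) (by linarith)
        _ = 4 := by norm_num
    have h6 : ‖1 - ζ m‖ ^ (1 - α) = wt α ζ m ^ α := by
      unfold wt
      rw [← Real.rpow_mul hr.le]
      congr 1
      field_simp
    have h7 : s ^ (1 - α) * wt α ζ m ^ α = η ^ (-α) * s := by
      rw [hs, Real.mul_rpow hη.le hT.le]
      have e1 : η ^ (1 - α) = η ^ (-α) * η := by
        rw [← Real.rpow_add_one hη.ne']; congr 1; ring
      have e2 : wt α ζ m ^ (1 - α) * wt α ζ m ^ α = wt α ζ m := by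
        rw [← Real.rpow_add hT]; norm_num
      calc η ^ (1 - α) * wt α ζ m ^ (1 - α) * wt α ζ m ^ α =
            η ^ (1 - α) * (wt α ζ m ^ (1 - α) * wt α ζ m ^ α) := by ring
        _ = _ := by rw [e1, e2]; ring
    calc ‖w‖ ^ (1 - α) ≤ 4 ^ (1 - α) * (s ^ (1 - α) * ‖1 - ζ m‖ ^ (1 - α)) := h3.trans h4.le
      _ = 4 ^ (1 - α) * (η ^ (-α) * s) := by rw [h6, h7]
      _ ≤ 4 * (η ^ (-α) * s) := mul_le_mul_of_nonneg_right h5 (by positivity)
      _ = _ := by ring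
  have hηα : 1 ≤ η ^ (-α) := Real.one_le_rpow_of_pos_of_le_one_of_nonpos hη hη1 (by linarith)
  have h3 : ‖gg α s w‖ ≤ 5 * η ^ (-α) * ‖w‖ ^ α := by
    refine (gg_le hs0 w).trans ?_
    have h4 : ‖w‖ / s = ‖w‖ ^ α * (‖w‖ ^ (1 - α) / s) := by
      rw [← mul_div_assoc, ← Real.rpow_add hwpos]
      norm_num
    rw [h4]
    have h5 : 0 < ‖w‖ ^ α := by positivity
    nlinarith [mul_le_mul_of_nonneg_left h2 h5.le, mul_le_mul_of_nonneg_left hηα h5.le]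
  have h4 := gg_re hα0 hα1 hs0 hw0 hwre
  have hc := cos_pos' hα0 hα1
  have hg := gg_pos hα0 hα1 hs0 hw0 hwre
  have hF : Fn α η ζ m z = (gg α s w)⁻¹ := rfl
  rw [hF, norm_inv, Complex.inv_re, Complex.normSq_eq_norm_sq]
  rw [le_div_iff₀ (by positivity)]
  have h5 : Real.cos (α * (Real.pi / 2)) * (η ^ α / 5) * ‖gg α s w‖⁻¹ * ‖gg α s w‖ ^ 2 =
      Real.cos (α * (Real.pi / 2)) * (η ^ α / 5 * ‖gg α s w‖) := by
    field_simp
  rw [h5]
  refine le_trans ?_ h4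
  apply mul_le_mul_of_nonneg_left _ hc.le
  have h6 : η ^ α * η ^ (-α) = 1 := by rw [← Real.rpow_add hη]; norm_num
  have h7 : 0 < η ^ α := by positivity
  calc η ^ α / 5 * ‖gg α s w‖ ≤ η ^ α / 5 * (5 * η ^ (-α) * ‖w‖ ^ α) :=
        mul_le_mul_of_nonneg_left h3 (by positivity)
    _ = (η ^ α * η ^ (-α)) * ‖w‖ ^ α := by ring
    _ = ‖w‖ ^ α := by rw [h6, one_mul]

/-- no cancellation -/
lemma AA_le : ∃ C : ℝ, 0 < C ∧ ∀ z ∈ closedBall (0 : ℂ) 1, z ∉ EE ζ →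
    AA α η ζ z ≤ C * ‖FF α η ζ z‖ := by
  have hc := cos_pos' S.hα0 S.hα1
  have hη := S.hη
  set κ := Real.cos (α * (Real.pi / 2)) * (η ^ α / 5) with hκ
  have hκ0 : 0 < κ := by positivity
  refine ⟨7 + 4 / κ, by positivity, fun z hz hzE => ?_⟩
  obtain ⟨m, hm⟩ := S.exists_near hzE
  have h1 := S.tsum_rest_le hz hzE hm
  have hz1 : 0 < ‖(1 - z)⁻¹‖ :=
    norm_pos_iff.2 (inv_ne_zero (sub_ne_zero.2 (ne_one_of hzE).symm))
  have hF0 : 0 ≤ ‖FF α η ζ z‖ := norm_nonneg _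
  by_cases hb : 1 / 2 * ‖(1 - z)⁻¹‖ < ‖Fn α η ζ m z‖
  · have h2 := S.re_ge hz hzE m hb
    have h3 := S.FF_re_ge m hz hzE
    have h4 : (FF α η ζ z).re ≤ ‖FF α η ζ z‖ := Complex.re_le_norm _
    have h5 : ‖Fn α η ζ m z‖ ≤ 1 / κ * ‖FF α η ζ z‖ := by
      rw [one_div, ← div_eq_inv_mul, le_div_iff₀ hκ0, mul_comm]
      exact (h2.trans h3).trans h4
    have h6 : 0 ≤ 1 / κ * ‖FF α η ζ z‖ := by positivity
    calc AA α η ζ z ≤ 4 * ‖Fn α η ζ m z‖ := by linarith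
      _ ≤ 4 * (1 / κ * ‖FF α η ζ z‖) := by linarith
      _ ≤ (7 + 4 / κ) * ‖FF α η ζ z‖ := by
          have : (7 + 4 / κ) * ‖FF α η ζ z‖ = 7 * ‖FF α η ζ z‖ + 4 * (1 / κ * ‖FF α η ζ z‖) := by
            ring
          linarith
  · push Not at hb
    have h2 : ‖(1 - z)⁻¹‖ ≤ ‖FF α η ζ z‖ + ∑' n, ‖Fn α η ζ n z‖ := by
      have h3 : (1 - z)⁻¹ = FF α η ζ z - ∑' n, Fn α η ζ n z := by unfold FF; ring
      calc ‖(1 - z)⁻¹‖ = ‖FF α η ζ z - ∑' n, Fn α η ζ n z‖ := by rw [← h3]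
        _ ≤ ‖FF α η ζ z‖ + ‖∑' n, Fn α η ζ n z‖ := norm_sub_le _ _
        _ ≤ _ := by
          have := norm_tsum_le_tsum_norm (S.summable_Fn hz hzE)
          linarith
    have h3 : ∑' n, ‖Fn α η ζ n z‖ ≤ 3 / 4 * ‖(1 - z)⁻¹‖ := by
      unfold AA at h1
      linarith
    have h4 : ‖(1 - z)⁻¹‖ ≤ 4 * ‖FF α η ζ z‖ := by linarith
    have h5 : 0 ≤ 4 / κ * ‖FF α η ζ z‖ := by positivity
    calc AA α η ζ z ≤ 7 / 4 * ‖(1 - z)⁻¹‖ := by linarith
      _ ≤ 7 * ‖FF α η ζ z‖ := by linarith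
      _ ≤ (7 + 4 / κ) * ‖FF α η ζ z‖ := by linarith

/-- the size of `F` near the set -/
lemma inv_FF_le : ∃ C : ℝ, 0 < C ∧ ∀ z ∈ closedBall (0 : ℂ) 1, z ∉ EE ζ →
    ‖(FF α η ζ z)⁻¹‖ ≤ C * infDist z (EE ζ) ^ α := by
  obtain ⟨C, hC, hA⟩ := S.AA_le
  have hα0 := S.hα0
  have hα1 := S.hα1
  have hη := S.hη
  have hη1 := S.hη1
  refine ⟨C * (6 + 4 / η), by positivity, fun z hz hzE => ?_⟩
  set δ := infDist z (EE ζ) with hδ
  have hδ0 : 0 < δ := S.infDist_pos hzE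
  have hz2 : ‖z‖ ≤ 1 := mem_closedBall_zero_iff.1 hz
  have hz1 : 0 < ‖1 - z‖ := norm_pos_iff.2 (sub_ne_zero.2 (ne_one_of hzE).symm)
  have h2z : ‖1 - z‖ ≤ 2 := by
    calc ‖1 - z‖ ≤ ‖(1 : ℂ)‖ + ‖z‖ := norm_sub_le _ _
      _ ≤ 2 := by rw [norm_one]; linarith
  have hδ2 : δ ≤ 2 := (infDist_le_one' z).trans h2z
  -- enough: a lower bound for `AA`
  have key : 1 ≤ (6 + 4 / η) * δ ^ α * AA α η ζ z := by
    have hsn : ∀ n, 0 ≤ ‖Fn α η ζ n z‖ := fun n => norm_nonneg _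
    have hA0 : ‖(1 - z)⁻¹‖ ≤ AA α η ζ z := by
      unfold AA
      have : 0 ≤ ∑' n, ‖Fn α η ζ n z‖ := tsum_nonneg hsn
      linarith
    have hAn : ∀ n, ‖Fn α η ζ n z‖ ≤ AA α η ζ z := by
      intro n
      unfold AA
      have h1 := (S.summable_Fn hz hzE).le_tsum n (fun k _ => hsn k)
      have h2 : 0 ≤ ‖(1 - z)⁻¹‖ := norm_nonneg _
      linarith
    have hδα : 0 < δ ^ α := by positivity
    have hAA0 : 0 ≤ AA α η ζ z := (norm_nonneg _).trans hA0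
    have hpow2 : ∀ x : ℝ, 0 < x → x ≤ 2 → x ≤ 2 * x ^ α := by
      intro x hx hx2
      have h1 : x = x ^ (1 - α) * x ^ α := by rw [← Real.rpow_add hx]; norm_num
      have h2 : x ^ (1 - α) ≤ 2 := by
        calc x ^ (1 - α) ≤ 2 ^ (1 - α) := Real.rpow_le_rpow hx.le hx2 (by linarith)
          _ ≤ 2 ^ (1 : ℝ) := Real.rpow_le_rpow_of_exponent_le (by norm_num) (by linarith)
          _ = 2 := by norm_num
      calc x = x ^ (1 - α) * x ^ α := h1
        _ ≤ 2 * x ^ α := mul_le_mul_of_nonneg_right h2 (by positivity)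
    have h2α : ∀ x : ℝ, 0 < x → x ≤ 2 * δ → x ^ α ≤ 2 * δ ^ α := by
      intro x hx hx2
      calc x ^ α ≤ (2 * δ) ^ α := Real.rpow_le_rpow hx.le hx2 hα0.le
        _ = 2 ^ α * δ ^ α := Real.mul_rpow (by norm_num) hδ0.le
        _ ≤ 2 * δ ^ α := by
          apply mul_le_mul_of_nonneg_right _ hδα.le
          calc (2 : ℝ) ^ α ≤ 2 ^ (1 : ℝ) :=
                Real.rpow_le_rpow_of_exponent_le (by norm_num) hα1.le
            _ = 2 := by norm_num
    -- a point of the set at distance less than `2 δ`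
    have h1 : δ < 2 * δ := by linarith
    obtain ⟨e, heE, hed⟩ := (infDist_lt_iff E_nonempty).1 h1
    have h4η : 0 < 4 / η := by positivity
    rcases heE with rfl | ⟨m, rfl⟩
    · rw [dist_comm, dist_eq_norm] at hed
      have h3 : ‖1 - z‖ ≤ 4 * δ ^ α := by
        have := hpow2 _ hz1 h2z
        have := h2α _ hz1 hed.le
        linarith
      calc (1 : ℝ) = ‖1 - z‖ * ‖(1 - z)⁻¹‖ := by rw [norm_inv]; field_simp
        _ ≤ (6 + 4 / η) * δ ^ α * AA α η ζ z := by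
          apply mul_le_mul _ hA0 (norm_nonneg _) (by positivity)
          nlinarith
    · rw [dist_eq_norm] at hed
      have hd := S.dist_pos m hzE
      set w := 1 - (starRingEnd ℂ) (ζ m) * z with hw
      have hwn : ‖w‖ = ‖z - ζ m‖ := S.w_norm m z
      have hw0 : w ≠ 0 := S.w_ne m hzE
      have hwpos : 0 < ‖w‖ := norm_pos_iff.2 hw0
      have hwre : 0 ≤ w.re := S.w_re m hz
      rw [← hwn] at hed
      set s := η * wt α ζ m with hs
      have hs0 : 0 < s := S.s_pos m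
      have hr := S.r_pos m
      have hT := S.wt_pos m
      by_cases hcase : ‖w‖ ^ (1 - α) ≤ wt α ζ m
      · have h3 : ‖gg α s w‖ ≤ (1 + 1 / η) * ‖w‖ ^ α := by
          refine (gg_le hs0 w).trans ?_
          have h4 : ‖w‖ / s = ‖w‖ ^ α * (‖w‖ ^ (1 - α) / s) := by
            rw [← mul_div_assoc, ← Real.rpow_add hwpos]
            norm_num
          have h5 : ‖w‖ ^ (1 - α) / s ≤ 1 / η := by
            rw [div_le_div_iff₀ hs0 hη, hs]
            nlinarith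
          rw [h4]
          have h6 : 0 < ‖w‖ ^ α := by positivity
          nlinarith [mul_le_mul_of_nonneg_left h5 h6.le]
        have hg := gg_pos hα0 hα1 hs0 hw0 hwre
        have h4 := h2α _ hwpos hed.le
        have h5 : ‖gg α s w‖ ≤ (6 + 4 / η) * δ ^ α := by
          calc ‖gg α s w‖ ≤ (1 + 1 / η) * ‖w‖ ^ α := h3
            _ ≤ (1 + 1 / η) * (2 * δ ^ α) := mul_le_mul_of_nonneg_left h4 (by positivity)
            _ ≤ _ := by
              have : (6 + 4 / η) * δ ^ α - (1 + 1 / η) * (2 * δ ^ α) =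
                (4 + 2 / η) * δ ^ α := by ring
              have : 0 ≤ (4 + 2 / η) * δ ^ α := by positivity
              linarith
        have hF : ‖Fn α η ζ m z‖ = ‖gg α s w‖⁻¹ := by rw [← norm_inv]; rfl
        calc (1 : ℝ) = ‖gg α s w‖ * ‖Fn α η ζ m z‖ := by rw [hF]; field_simp
          _ ≤ (6 + 4 / η) * δ ^ α * AA α η ζ z := by
            apply mul_le_mul h5 (hAn m) (norm_nonneg _) (by positivity)
      · push Not at hcase
        have h3 : ‖1 - ζ m‖ ≤ ‖w‖ ^ α := by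
          have h4 : wt α ζ m ^ (α / (1 - α)) ≤ (‖w‖ ^ (1 - α)) ^ (α / (1 - α)) :=
            Real.rpow_le_rpow hT.le hcase.le (div_nonneg hα0.le (by linarith))
          have h1α : (1 - α) ≠ 0 := by linarith
          unfold wt at h4
          rw [← Real.rpow_mul hr.le, ← Real.rpow_mul hwpos.le] at h4
          have e1 : (1 - α) / α * (α / (1 - α)) = 1 := by field_simp
          have e2 : (1 - α) * (α / (1 - α)) = α := by field_simp
          rwa [e1, e2, Real.rpow_one] at h4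
        have h4 : ‖1 - z‖ ≤ ‖1 - ζ m‖ + ‖w‖ := by
          rw [hwn]
          calc ‖1 - z‖ = ‖(1 - ζ m) - (z - ζ m)‖ := by congr 1; ring
            _ ≤ ‖1 - ζ m‖ + ‖z - ζ m‖ := norm_sub_le _ _
        have hw2 : ‖w‖ ≤ 2 := by
          rw [hwn]
          calc ‖z - ζ m‖ ≤ ‖z‖ + ‖ζ m‖ := norm_sub_le _ _
            _ ≤ 2 := by rw [S.norm m]; linarith
        have h5 := hpow2 _ hwpos hw2
        have h6 := h2α _ hwpos hed.le
        have h7 : ‖1 - z‖ ≤ 6 * δ ^ α := by linarith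
        calc (1 : ℝ) = ‖1 - z‖ * ‖(1 - z)⁻¹‖ := by rw [norm_inv]; field_simp
          _ ≤ (6 + 4 / η) * δ ^ α * AA α η ζ z := by
            apply mul_le_mul _ hA0 (norm_nonneg _) (by positivity)
            nlinarith
  have h1 := hA z hz hzE
  have hF0 : 0 < ‖FF α η ζ z‖ := norm_pos_iff.2 (S.FF_ne hz hzE)
  rw [norm_inv, inv_le_iff_one_le_mul₀ hF0]
  have h2 : 0 ≤ (6 + 4 / η) * δ ^ α := by positivity
  calc (1 : ℝ) ≤ (6 + 4 / η) * δ ^ α * AA α η ζ z := key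
    _ ≤ (6 + 4 / η) * δ ^ α * (C * ‖FF α η ζ z‖) := mul_le_mul_of_nonneg_left h1 h2
    _ = _ := by ring

end Sys

end Pool.Agent.P8H73.Pk
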