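import Pool.Agent.P8H73.Pk.Defs

/-!
# Flatness of functions of the Gevrey class
-/

set_option autoImplicit false

open Complex Filter Topology Metric Set

namespace Pool.Agent.P8H73.Pk

/-- one integration along a segment ending at a boundary point -/
lemma integrate_once {g : ℂ → ℂ} (hg : DifferentiableOn ℂ g (ball (0 : ℂ) 1)) {ζ : ℂ}
    (hζ : ‖ζ‖ = 1) (hlim : Tendsto g (𝓝[ball (0 : ℂ) 1] ζ) (𝓝 0)) {B : ℝ} {k : ℕ}
    (hB : ∀ z ∈ ball (0 : ℂ) 1, ‖deriv g z‖ ≤ B * ‖z - ζ‖ ^ k) {z : ℂ}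
    (hz : z ∈ ball (0 : ℂ) 1) : ‖g z‖ ≤ B * ‖z - ζ‖ ^ (k + 1) / (k + 1) := by
  set γ : ℝ → ℂ := fun t => ζ + (t : ℂ) * (z - ζ) with hγ
  have hz1 : ‖z‖ < 1 := mem_ball_zero_iff.1 hz
  have hball : ∀ t : ℝ, 0 < t → t ≤ 1 → γ t ∈ ball (0 : ℂ) 1 := by
    intro t ht0 ht1
    rw [mem_ball_zero_iff]
    have e : γ t = ((1 - t : ℝ) : ℂ) * ζ + (t : ℂ) * z := by
      simp only [hγ]
      push_cast
      ring
    rw [e]
    calc ‖((1 - t : ℝ) : ℂ) * ζ + (t : ℂ) * z‖ ≤ ‖((1 - t : ℝ) : ℂ) * ζ‖ + ‖(t : ℂ) * z‖ :=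
          norm_add_le _ _
      _ = (1 - t) + t * ‖z‖ := by
          rw [norm_mul, norm_mul, Complex.norm_real, Complex.norm_real, hζ,
            Real.norm_of_nonneg (by linarith), Real.norm_of_nonneg ht0.le, mul_one]
      _ < 1 := by nlinarith
  have hγ1 : γ 1 = z := by simp [hγ]
  have hderiv : ∀ t : ℝ, 0 < t → t ≤ 1 →
      HasDerivAt (fun s : ℝ => g (γ s)) (deriv g (γ t) * (z - ζ)) t := by
    intro t ht0 ht1
    have h1 : HasDerivAt g (deriv g (γ t)) (γ t) :=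
      (hg.differentiableAt (isOpen_ball.mem_nhds (hball t ht0 ht1))).hasDerivAt
    have h2 : HasDerivAt γ (z - ζ) t := by
      have h3 : HasDerivAt (fun s : ℝ => (s : ℂ)) 1 t := Complex.ofRealCLM.hasDerivAt
      have h4 := (h3.mul_const (z - ζ)).const_add ζ
      rw [one_mul] at h4
      exact h4
    exact h1.comp_of_eq t h2 rfl
  have hnormγ : ∀ t : ℝ, 0 ≤ t → ‖γ t - ζ‖ = t * ‖z - ζ‖ := by
    intro t ht
    have : γ t - ζ = (t : ℂ) * (z - ζ) := by simp only [hγ]; ring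
    rw [this, norm_mul, Complex.norm_real, Real.norm_of_nonneg ht]
  have key : ∀ t0 : ℝ, 0 < t0 → t0 < 1 →
      ‖g z‖ ≤ ‖g (γ t0)‖ + B * ‖z - ζ‖ ^ (k + 1) / (k + 1) * (1 - t0 ^ (k + 1)) := by
    intro t0 ht0 ht01
    have h1 := image_norm_le_of_norm_deriv_right_le_deriv_boundary
      (f := fun s : ℝ => g (γ s)) (f' := fun s => deriv g (γ s) * (z - ζ)) (a := t0) (b := 1)
      (fun t ht => (hderiv t (lt_of_lt_of_le ht0 ht.1) ht.2).continuousAt.continuousWithinAt)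
      (fun t ht => (hderiv t (lt_of_lt_of_le ht0 ht.1) ht.2.le).hasDerivWithinAt)
      (B := fun s => ‖g (γ t0)‖ + B * ‖z - ζ‖ ^ (k + 1) / (k + 1) * (s ^ (k + 1) - t0 ^ (k + 1)))
      (B' := fun s => B * ‖z - ζ‖ ^ (k + 1) * s ^ k)
      (by simp)
      (fun s => by
        have h2 : HasDerivAt (fun s : ℝ => s ^ (k + 1)) (((k + 1 : ℕ) : ℝ) * s ^ k) s := by
          simpa using hasDerivAt_pow (k + 1) s
        have h3 := ((h2.sub_const (t0 ^ (k + 1))).const_mul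
          (B * ‖z - ζ‖ ^ (k + 1) / (k + 1))).const_add (‖g (γ t0)‖)
        have e : B * ‖z - ζ‖ ^ (k + 1) / ((k : ℝ) + 1) * (((k + 1 : ℕ) : ℝ) * s ^ k) =
            B * ‖z - ζ‖ ^ (k + 1) * s ^ k := by
          push_cast
          have : (k : ℝ) + 1 ≠ 0 := by positivity
          field_simp
        rw [e] at h3
        exact h3)
      (fun s hs => by
        have hs0 : 0 < s := lt_of_lt_of_le ht0 hs.1
        have h2 := hB (γ s) (hball s hs0 hs.2.le)
        rw [hnormγ s hs0.le] at h2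
        rw [norm_mul]
        calc ‖deriv g (γ s)‖ * ‖z - ζ‖ ≤ B * (s * ‖z - ζ‖) ^ k * ‖z - ζ‖ :=
              mul_le_mul_of_nonneg_right h2 (norm_nonneg _)
          _ = B * ‖z - ζ‖ ^ (k + 1) * s ^ k := by rw [mul_pow]; ring)
    have h2 := h1 (right_mem_Icc.2 ht01.le)
    simp only [hγ1, one_pow] at h2
    exact h2
  -- let `t0 → 0`
  have hlim1 : Tendsto γ (𝓝[>] 0) (𝓝[ball (0 : ℂ) 1] ζ) := by
    rw [tendsto_nhdsWithin_iff]
    constructor
    · have h1 : Continuous γ := by simp only [hγ]; fun_prop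
      have h2 := h1.tendsto 0
      have h3 : γ 0 = ζ := by simp [hγ]
      rw [h3] at h2
      exact h2.mono_left nhdsWithin_le_nhds
    · have : Ioc (0 : ℝ) 1 ∈ 𝓝[>] (0 : ℝ) := Ioc_mem_nhdsGT one_pos
      filter_upwards [this] with t ht
      exact hball t ht.1 ht.2
  have hlim2 : Tendsto (fun t0 : ℝ => ‖g (γ t0)‖ +
      B * ‖z - ζ‖ ^ (k + 1) / (k + 1) * (1 - t0 ^ (k + 1))) (𝓝[>] 0)
      (𝓝 (‖(0 : ℂ)‖ + B * ‖z - ζ‖ ^ (k + 1) / (k + 1) * (1 - 0 ^ (k + 1)))) := by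
    apply Tendsto.add (hlim.comp hlim1).norm
    have h1 : Continuous fun t0 : ℝ => B * ‖z - ζ‖ ^ (k + 1) / (k + 1) * (1 - t0 ^ (k + 1)) := by
      fun_prop
    exact (h1.tendsto 0).mono_left nhdsWithin_le_nhds
  have hfin := ge_of_tendsto hlim2 (by
    filter_upwards [Ioo_mem_nhdsGT (one_pos : (0 : ℝ) < 1)] with t0 ht0
    exact key t0 ht0.1 ht0.2)
  simpa using hfin

/-- Taylor estimate at a boundary point at which all derivatives vanish -/
lemma flat_taylor {f : ℂ → ℂ} (hf : DifferentiableOn ℂ f (ball (0 : ℂ) 1)) {ζ : ℂ}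
    (hζ : ‖ζ‖ = 1) (hlim : ∀ n, Tendsto (iteratedDeriv n f) (𝓝[ball (0 : ℂ) 1] ζ) (𝓝 0)) {B : ℝ}
    {n : ℕ} (hB : ∀ z ∈ ball (0 : ℂ) 1, ‖iteratedDeriv n f z‖ ≤ B) :
    ∀ k ≤ n, ∀ z ∈ ball (0 : ℂ) 1,
      ‖iteratedDeriv (n - k) f z‖ ≤ B * ‖z - ζ‖ ^ k / (k.factorial : ℝ) := by
  have hdiff : ∀ m, DifferentiableOn ℂ (iteratedDeriv m f) (ball (0 : ℂ) 1) := by
    intro m
    induction m with
    | zero => simpa using hf
    | succ m ih =>
      rw [iteratedDeriv_succ]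
      exact ih.deriv isOpen_ball
  intro k
  induction k with
  | zero =>
    intro _ z hz
    simpa using hB z hz
  | succ k ih =>
    intro hk z hz
    have ih' := ih (by omega)
    have e : n - k = (n - (k + 1)) + 1 := by omega
    have h1 : ∀ w ∈ ball (0 : ℂ) 1, ‖deriv (iteratedDeriv (n - (k + 1)) f) w‖ ≤
        B / (k.factorial : ℝ) * ‖w - ζ‖ ^ k := by
      intro w hw
      have h2 := ih' w hw
      rw [e, iteratedDeriv_succ] at h2
      refine h2.trans (le_of_eq ?_)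
      ring
    have h2 := integrate_once (hdiff _) hζ (hlim _) h1 hz
    refine h2.trans (le_of_eq ?_)
    rw [Nat.factorial_succ]
    push_cast
    have h3 : (k : ℝ) + 1 ≠ 0 := by positivity
    have h4 : (k.factorial : ℝ) ≠ 0 := by positivity
    field_simp

/-- exponential decay near a point at which all derivatives vanish -/
theorem exp_decay {α : ℝ} (hα : 0 < α) {f : ℂ → ℂ} (hf : IsGevrey α f) :
    ∃ A D : ℝ, 0 < A ∧ 0 < D ∧ ∀ ζ : ℂ, ‖ζ‖ = 1 →
      (∀ n, Tendsto (iteratedDeriv n f) (𝓝[ball (0 : ℂ) 1] ζ) (𝓝 0)) →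
      ∀ z ∈ ball (0 : ℂ) 1, ‖f z‖ ≤ A * Real.exp (-((D * ‖z - ζ‖) ^ (-α))) := by
  obtain ⟨hdiff, C, hC⟩ := hf
  set C' := max C 1 with hC'
  have hC1 : 1 ≤ C' := le_max_right _ _
  have hCn : ∀ n : ℕ, ∀ z ∈ ball (0 : ℂ) 1,
      ‖iteratedDeriv n f z‖ ≤ C' ^ (n + 1) * (n.factorial : ℝ) ^ (1 + 1 / α) := by
    intro n z hz
    refine (hC n z hz).trans ?_
    apply mul_le_mul_of_nonneg_right _ (by positivity)
    by_cases h0 : 0 ≤ C
    · exact pow_le_pow_left₀ h0 (le_max_left _ _) _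
    · push Not at h0
      -- the case of a negative constant: `C` can be replaced by `|C|`, or the bound is trivial
      have h1 := hC 0 z hz
      simp only [zero_add, pow_one, Nat.factorial_zero, Nat.cast_one, Real.one_rpow,
        mul_one] at h1
      exact absurd (norm_nonneg _) (not_le.2 (lt_of_le_of_lt h1 h0))
  refine ⟨C' * Real.exp 1, C' * Real.exp 1, by positivity, by positivity, ?_⟩
  intro ζ hζ hlim z hz
  have hρ : 0 < ‖z - ζ‖ := by
    rw [norm_pos_iff, sub_ne_zero]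
    rintro rfl
    rw [mem_ball_zero_iff, hζ] at hz
    exact lt_irrefl _ hz
  set ρ := ‖z - ζ‖ with hρdef
  set x := (C' * Real.exp 1 * ρ) ^ (-α) with hx
  have hx0 : 0 < x := by positivity
  set n := ⌊x⌋₊ with hn
  have hnx : (n : ℝ) ≤ x := Nat.floor_le hx0.le
  have hxn : x < n + 1 := Nat.lt_floor_add_one x
  have h1 := flat_taylor hdiff hζ hlim (hCn n) n le_rfl z hz
  rw [Nat.sub_self, iteratedDeriv_zero] at h1
  -- `(n!) ^ (1 / α) ≤ (n ^ (1 / α)) ^ n`
  have hfac : (n.factorial : ℝ) ^ (1 / α) ≤ ((n : ℝ) ^ (1 / α)) ^ n := by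
    calc (n.factorial : ℝ) ^ (1 / α) ≤ ((n : ℝ) ^ n) ^ (1 / α) := by
          apply Real.rpow_le_rpow (by positivity) _ (by positivity)
          exact_mod_cast Nat.factorial_le_pow n
      _ = ((n : ℝ) ^ (1 / α)) ^ n := by
          rw [← Real.rpow_natCast, ← Real.rpow_natCast, ← Real.rpow_mul (by positivity),
            ← Real.rpow_mul (by positivity), mul_comm]
  have hsmall : C' * ρ * (n : ℝ) ^ (1 / α) ≤ Real.exp (-1) := by
    have h2 : (n : ℝ) ^ (1 / α) ≤ x ^ (1 / α) :=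
      Real.rpow_le_rpow (by positivity) hnx (by positivity)
    have h3 : x ^ (1 / α) = (C' * Real.exp 1 * ρ)⁻¹ := by
      rw [hx, ← Real.rpow_mul (by positivity)]
      have : -α * (1 / α) = -1 := by field_simp
      rw [this, Real.rpow_neg_one]
    rw [h3] at h2
    calc C' * ρ * (n : ℝ) ^ (1 / α) ≤ C' * ρ * (C' * Real.exp 1 * ρ)⁻¹ :=
          mul_le_mul_of_nonneg_left h2 (by positivity)
      _ = Real.exp (-1) := by
          rw [Real.exp_neg]
          field_simp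
  have h2 : ‖f z‖ ≤ C' * (C' * ρ * (n : ℝ) ^ (1 / α)) ^ n := by
    refine h1.trans ?_
    have hf0 : (0 : ℝ) < n.factorial := by positivity
    rw [div_le_iff₀ hf0, Real.rpow_add hf0, Real.rpow_one]
    calc C' ^ (n + 1) * ((n.factorial : ℝ) * (n.factorial : ℝ) ^ (1 / α)) * ρ ^ n
        ≤ C' ^ (n + 1) * ((n.factorial : ℝ) * ((n : ℝ) ^ (1 / α)) ^ n) * ρ ^ n := by
          gcongr
      _ = _ := by rw [mul_pow, mul_pow]; ring
  calc ‖f z‖ ≤ C' * (C' * ρ * (n : ℝ) ^ (1 / α)) ^ n := h2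
    _ ≤ C' * (Real.exp (-1)) ^ n := by gcongr
    _ = C' * Real.exp (-(n : ℝ)) := by
        rw [← Real.exp_nat_mul]
        congr 2
        ring
    _ ≤ C' * Real.exp (1 - x) := by
        apply mul_le_mul_of_nonneg_left _ (by positivity)
        apply Real.exp_le_exp.2
        linarith
    _ = C' * Real.exp 1 * Real.exp (-x) := by
        rw [sub_eq_add_neg, Real.exp_add]
        ring

end Pool.Agent.P8H73.Pk
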