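import Pool.Agent.P8H73.Pk.Est
import Pool.Agent.P8H73.Pk.Defs

/-!
# The set is a peak set
-/

set_option autoImplicit false

open Complex Filter Topology Metric Set

namespace Pool.Agent.P8H73.Pk

open Classical in
/-- the reciprocal of `F`, equal to `0` on the set -/
noncomputable def GG {ι : Type} (α η : ℝ) (ζ : ι → ℂ) (z : ℂ) : ℂ :=
  if z ∈ EE ζ then 0 else (FF α η ζ z)⁻¹

namespace Sys

variable {ι : Type} {α : ℝ} {ζ : ι → ℂ} {η M : ℝ} (S : Sys α ζ η M)
include S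

/-- close points -/
lemma FF_sub_le {z v : ℂ} (hz : z ∈ closedBall (0 : ℂ) 1) (hzE : z ∉ EE ζ)
    (hv : v ∈ closedBall (0 : ℂ) 1) (hvE : v ∉ EE ζ) (hd : ‖z - v‖ ≤ infDist z (EE ζ) / 2) :
    ‖FF α η ζ z - FF α η ζ v‖ ≤ 3 * (‖z - v‖ / infDist z (EE ζ)) * AA α η ζ v := by
  set δ := infDist z (EE ζ) with hδ
  have hδ0 : 0 < δ := S.infDist_pos hzE
  have hterm : ∀ n, ‖Fn α η ζ n z - Fn α η ζ n v‖ ≤ 3 * (‖z - v‖ / δ) * ‖Fn α η ζ n v‖ := by
    intro n
    set w := 1 - (starRingEnd ℂ) (ζ n) * z with hw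
    set u := 1 - (starRingEnd ℂ) (ζ n) * v with hu
    have hwn : ‖w‖ = ‖z - ζ n‖ := S.w_norm n z
    have hw0 : w ≠ 0 := S.w_ne n hzE
    have hu0 : u ≠ 0 := S.w_ne n hvE
    have hwre : 0 ≤ w.re := S.w_re n hz
    have hure : 0 ≤ u.re := S.w_re n hv
    have hδw : δ ≤ ‖w‖ := by rw [hwn]; exact infDist_le_n z n
    have huw : ‖u - w‖ = ‖z - v‖ := by
      have : u - w = (starRingEnd ℂ) (ζ n) * (z - v) := by rw [hu, hw]; ring
      rw [this, norm_mul, RCLike.norm_conj, S.norm n, one_mul]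
    set s := η * wt α ζ n with hs
    have hs0 : 0 < s := S.s_pos n
    have h1 := gg_sub_le S.hα0 S.hα1 hs0 hw0 hwre hure (by rw [huw]; linarith)
    have hgw := gg_pos S.hα0 S.hα1 hs0 hw0 hwre
    have hgu := gg_pos S.hα0 S.hα1 hs0 hu0 hure
    have hgw' : gg α s w ≠ 0 := norm_pos_iff.1 hgw
    have hgu' : gg α s u ≠ 0 := norm_pos_iff.1 hgu
    have e : Fn α η ζ n z - Fn α η ζ n v = (gg α s u - gg α s w) / (gg α s w * gg α s u) := by
      have e1 : Fn α η ζ n z = (gg α s w)⁻¹ := rfl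
      have e2 : Fn α η ζ n v = (gg α s u)⁻¹ := rfl
      rw [e1, e2]
      field_simp
    have e2 : ‖Fn α η ζ n v‖ = ‖gg α s u‖⁻¹ := by rw [← norm_inv]; rfl
    rw [e, norm_div, norm_mul, e2, div_le_iff₀ (by positivity)]
    have e3 : 3 * (‖z - v‖ / δ) * ‖gg α s u‖⁻¹ * (‖gg α s w‖ * ‖gg α s u‖) =
        3 * (‖z - v‖ / δ) * ‖gg α s w‖ := by
      field_simp
    rw [e3]
    refine h1.trans ?_
    rw [huw]
    apply mul_le_mul_of_nonneg_right _ hgw.le
    apply mul_le_mul_of_nonneg_left _ (by norm_num)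
    exact div_le_div_of_nonneg_left (norm_nonneg _) hδ0 hδw
  have hzero : ‖(1 - z)⁻¹ - (1 - v)⁻¹‖ ≤ 3 * (‖z - v‖ / δ) * ‖(1 - v)⁻¹‖ := by
    have hz1 : 1 - z ≠ 0 := sub_ne_zero.2 (ne_one_of hzE).symm
    have hv1 : 1 - v ≠ 0 := sub_ne_zero.2 (ne_one_of hvE).symm
    have hz2 : 0 < ‖1 - z‖ := norm_pos_iff.2 hz1
    have hv2 : 0 < ‖1 - v‖ := norm_pos_iff.2 hv1
    have e : (1 - z)⁻¹ - (1 - v)⁻¹ = (z - v) / ((1 - z) * (1 - v)) := by
      field_simp
      ring
    have hδz : δ ≤ ‖1 - z‖ := infDist_le_one' z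
    rw [e, norm_div, norm_mul, norm_inv, div_le_iff₀ (by positivity)]
    have e3 : 3 * (‖z - v‖ / δ) * ‖1 - v‖⁻¹ * (‖1 - z‖ * ‖1 - v‖) =
        3 * (‖z - v‖ / δ * ‖1 - z‖) := by
      field_simp
    rw [e3]
    have h4 : ‖z - v‖ ≤ ‖z - v‖ / δ * ‖1 - z‖ := by
      rw [div_mul_eq_mul_div, le_div_iff₀ hδ0]
      exact mul_le_mul_of_nonneg_left hδz (norm_nonneg _)
    have h5 : 0 ≤ ‖z - v‖ := norm_nonneg _
    linarith
  have e : FF α η ζ z - FF α η ζ v =
      ((1 - z)⁻¹ - (1 - v)⁻¹) + ∑' n, (Fn α η ζ n z - Fn α η ζ n v) := by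
    rw [(S.summable_Fn' hz hzE).tsum_sub (S.summable_Fn' hv hvE)]
    unfold FF
    ring
  have hs2 : Summable fun n => 3 * (‖z - v‖ / δ) * ‖Fn α η ζ n v‖ :=
    (S.summable_Fn hv hvE).mul_left _
  have hs1 : Summable fun n => ‖Fn α η ζ n z - Fn α η ζ n v‖ :=
    Summable.of_nonneg_of_le (fun n => norm_nonneg _) hterm hs2
  rw [e]
  refine (norm_add_le _ _).trans ?_
  unfold AA
  rw [mul_add]
  refine add_le_add hzero ?_
  refine (norm_tsum_le_tsum_norm hs1).trans ?_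
  rw [← tsum_mul_left]
  exact hs1.tsum_le_tsum hterm hs2

/-- the main estimate -/
lemma GG_holder : ∃ C : ℝ, 0 < C ∧ ∀ z ∈ closedBall (0 : ℂ) 1, ∀ v ∈ closedBall (0 : ℂ) 1,
    ‖GG α η ζ z - GG α η ζ v‖ ≤ C * ‖z - v‖ ^ α := by
  obtain ⟨C₁, hC₁, hA⟩ := S.AA_le
  obtain ⟨C₂, hC₂, hB⟩ := S.inv_FF_le
  have hα0 := S.hα0
  have hα1 := S.hα1
  have hpow : ∀ c : ℝ, 1 ≤ c → ∀ x : ℝ, 0 ≤ x → (c * x) ^ α ≤ c * x ^ α := by
    intro c hc x hx
    rw [Real.mul_rpow (by linarith) hx]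
    apply mul_le_mul_of_nonneg_right _ (by positivity)
    calc c ^ α ≤ c ^ (1 : ℝ) := Real.rpow_le_rpow_of_exponent_le hc hα1.le
      _ = c := Real.rpow_one c
  -- one point on the set
  have hone : ∀ z ∈ EE ζ, ∀ v ∈ closedBall (0 : ℂ) 1, v ∉ EE ζ →
      ‖(FF α η ζ v)⁻¹‖ ≤ C₂ * ‖z - v‖ ^ α := by
    intro z hz v hv hvE
    refine (hB v hv hvE).trans ?_
    apply mul_le_mul_of_nonneg_left _ hC₂.le
    apply Real.rpow_le_rpow infDist_nonneg _ hα0.le
    have := infDist_le_dist_of_mem (x := v) hz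
    rwa [dist_comm, dist_eq_norm] at this
  refine ⟨5 * C₂ + 3 * C₁ * C₂, by positivity, fun z hz v hv => ?_⟩
  have hx0 : 0 ≤ ‖z - v‖ ^ α := by positivity
  have hle1 : C₂ * ‖z - v‖ ^ α ≤ (5 * C₂ + 3 * C₁ * C₂) * ‖z - v‖ ^ α := by
    apply mul_le_mul_of_nonneg_right _ hx0
    nlinarith [mul_pos hC₁ hC₂]
  unfold GG
  by_cases hzE : z ∈ EE ζ
  · by_cases hvE : v ∈ EE ζ
    · rw [if_pos hzE, if_pos hvE, sub_zero, norm_zero]
      positivity
    · rw [if_pos hzE, if_neg hvE, zero_sub, norm_neg]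
      exact (hone z hzE v hv hvE).trans hle1
  · by_cases hvE : v ∈ EE ζ
    · rw [if_neg hzE, if_pos hvE, sub_zero]
      have := hone v hvE z hz hzE
      rw [norm_sub_rev v z] at this
      exact this.trans hle1
    · rw [if_neg hzE, if_neg hvE]
      set δ := infDist z (EE ζ) with hδ
      have hδ0 : 0 < δ := S.infDist_pos hzE
      by_cases hcase : ‖z - v‖ ≤ δ / 2
      · by_cases heq : z = v
        · subst heq
          simp only [sub_self, norm_zero]
          positivity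
        have hzv : 0 < ‖z - v‖ := norm_pos_iff.2 (sub_ne_zero.2 heq)
        have h1 := S.FF_sub_le hz hzE hv hvE hcase
        have h2 := hA v hv hvE
        have hFz := S.FF_ne hz hzE
        have hFv := S.FF_ne hv hvE
        have hFz' : 0 < ‖FF α η ζ z‖ := norm_pos_iff.2 hFz
        have hFv' : 0 < ‖FF α η ζ v‖ := norm_pos_iff.2 hFv
        have h3 : ‖FF α η ζ z - FF α η ζ v‖ ≤ 3 * C₁ * (‖z - v‖ / δ) * ‖FF α η ζ v‖ := by
          refine h1.trans ?_
          have h4 : 0 ≤ 3 * (‖z - v‖ / δ) := by positivity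
          calc 3 * (‖z - v‖ / δ) * AA α η ζ v ≤ 3 * (‖z - v‖ / δ) * (C₁ * ‖FF α η ζ v‖) :=
                mul_le_mul_of_nonneg_left h2 h4
            _ = _ := by ring
        have e : (FF α η ζ z)⁻¹ - (FF α η ζ v)⁻¹ =
            -((FF α η ζ z - FF α η ζ v) / FF α η ζ v) * (FF α η ζ z)⁻¹ := by
          field_simp
          ring
        have h4 : ‖(FF α η ζ z - FF α η ζ v) / FF α η ζ v‖ ≤ 3 * C₁ * (‖z - v‖ / δ) := by
          rw [norm_div, div_le_iff₀ hFv']
          exact h3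
        have h5 := hB z hz hzE
        have h6 : ‖z - v‖ / δ * δ ^ α ≤ ‖z - v‖ ^ α := by
          have h7 : ‖z - v‖ / δ ≤ 1 := by rw [div_le_one hδ0]; linarith
          have h8 : ‖z - v‖ / δ = (‖z - v‖ / δ) ^ (1 - α) * (‖z - v‖ / δ) ^ α := by
            rw [← Real.rpow_add (by positivity)]
            norm_num
          have h9 : (‖z - v‖ / δ) ^ (1 - α) ≤ 1 :=
            Real.rpow_le_one (by positivity) h7 (by linarith)
          calc ‖z - v‖ / δ * δ ^ α = (‖z - v‖ / δ) ^ (1 - α) * ((‖z - v‖ / δ) ^ α * δ ^ α) := by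
                conv_lhs => rw [h8]
                ring
            _ = (‖z - v‖ / δ) ^ (1 - α) * ‖z - v‖ ^ α := by
                rw [← Real.mul_rpow (by positivity) hδ0.le, div_mul_cancel₀ _ hδ0.ne']
            _ ≤ 1 * ‖z - v‖ ^ α := mul_le_mul_of_nonneg_right h9 hx0
            _ = _ := one_mul _
        rw [e, norm_mul, norm_neg]
        calc ‖(FF α η ζ z - FF α η ζ v) / FF α η ζ v‖ * ‖(FF α η ζ z)⁻¹‖
            ≤ (3 * C₁ * (‖z - v‖ / δ)) * (C₂ * δ ^ α) :=
              mul_le_mul h4 h5 (norm_nonneg _) (by positivity)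
          _ = 3 * C₁ * C₂ * (‖z - v‖ / δ * δ ^ α) := by ring
          _ ≤ 3 * C₁ * C₂ * ‖z - v‖ ^ α := mul_le_mul_of_nonneg_left h6 (by positivity)
          _ ≤ _ := by
            apply mul_le_mul_of_nonneg_right _ hx0
            linarith
      · push Not at hcase
        have h1 : δ ≤ 2 * ‖z - v‖ := by linarith
        have h2 : infDist v (EE ζ) ≤ 3 * ‖z - v‖ := by
          have := infDist_le_infDist_add_dist (s := EE ζ) (x := v) (y := z)
          rw [dist_comm, dist_eq_norm] at this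
          linarith
        have h3 : ‖(FF α η ζ z)⁻¹‖ ≤ C₂ * (2 * ‖z - v‖ ^ α) := by
          refine (hB z hz hzE).trans ?_
          apply mul_le_mul_of_nonneg_left _ hC₂.le
          refine le_trans (Real.rpow_le_rpow infDist_nonneg h1 hα0.le) ?_
          exact hpow 2 (by norm_num) _ (norm_nonneg _)
        have h4 : ‖(FF α η ζ v)⁻¹‖ ≤ C₂ * (3 * ‖z - v‖ ^ α) := by
          refine (hB v hv hvE).trans ?_
          apply mul_le_mul_of_nonneg_left _ hC₂.le
          refine le_trans (Real.rpow_le_rpow infDist_nonneg h2 hα0.le) ?_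
          exact hpow 3 (by norm_num) _ (norm_nonneg _)
        calc ‖(FF α η ζ z)⁻¹ - (FF α η ζ v)⁻¹‖ ≤ ‖(FF α η ζ z)⁻¹‖ + ‖(FF α η ζ v)⁻¹‖ :=
              norm_sub_le _ _
          _ ≤ C₂ * (2 * ‖z - v‖ ^ α) + C₂ * (3 * ‖z - v‖ ^ α) := add_le_add h3 h4
          _ = 5 * C₂ * ‖z - v‖ ^ α := by ring
          _ ≤ _ := by
            apply mul_le_mul_of_nonneg_right _ hx0
            nlinarith [mul_pos hC₁ hC₂]

lemma E_sphere : EE ζ ⊆ sphere (0 : ℂ) 1 := by
  rintro z (rfl | ⟨n, rfl⟩)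
  · simp
  · simp [S.norm n]

lemma ball_notMem {z : ℂ} (hz : z ∈ ball (0 : ℂ) 1) : z ∉ EE ζ := by
  intro h
  have h1 := S.E_sphere h
  rw [mem_sphere_zero_iff_norm] at h1
  rw [mem_ball_zero_iff] at hz
  linarith

lemma FF_diff : DifferentiableOn ℂ (FF α η ζ) (ball (0 : ℂ) 1) := by
  intro z hz
  apply DifferentiableAt.differentiableWithinAt
  have hz' : ‖z‖ < 1 := mem_ball_zero_iff.1 hz
  set ρ := (1 + ‖z‖) / 2 with hρ
  have hρ1 : ρ < 1 := by rw [hρ]; linarith
  have hzρ : z ∈ ball (0 : ℂ) ρ := by rw [mem_ball_zero_iff, hρ]; linarith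
  have hsub : ball (0 : ℂ) ρ ⊆ ball (0 : ℂ) 1 := ball_subset_ball hρ1.le
  have h1 : DifferentiableOn ℂ (fun z => ∑' n, Fn α η ζ n z) (ball (0 : ℂ) ρ) := by
    refine Complex.differentiableOn_tsum_of_summable_norm
      (u := fun n => η * wt α ζ n / (1 - ρ)) ((S.summable_wt.mul_left η).div_const _)
      (fun n => ?_) isOpen_ball (fun n v hv => ?_)
    · intro v hv
      have hv1 := hsub hv
      have hvE := S.ball_notMem hv1
      have hvc : v ∈ closedBall (0 : ℂ) 1 := ball_subset_closedBall hv1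
      have hre := S.w_re n hvc
      have h0 := S.w_ne n hvE
      have hslit : 1 - (starRingEnd ℂ) (ζ n) * v ∈ Complex.slitPlane := by
        rw [Complex.mem_slitPlane_iff]
        left
        rw [Complex.sub_re, Complex.one_re]
        have h2 : ((starRingEnd ℂ) (ζ n) * v).re ≤ ‖(starRingEnd ℂ) (ζ n) * v‖ :=
          Complex.re_le_norm _
        rw [norm_mul, RCLike.norm_conj, S.norm n, one_mul] at h2
        rw [mem_ball_zero_iff] at hv1
        linarith
      apply DifferentiableAt.differentiableWithinAt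
      have hin : DifferentiableAt ℂ (fun v => 1 - (starRingEnd ℂ) (ζ n) * v) v := by fun_prop
      have hg : DifferentiableAt ℂ (fun v => gg α (η * wt α ζ n)
          (1 - (starRingEnd ℂ) (ζ n) * v)) v := by
        unfold gg
        exact (hin.cpow_const hslit).add (hin.div_const _)
      exact hg.inv (gg_ne S.hα0 S.hα1 (S.s_pos n) h0 hre)
    · have hv1 := hsub hv
      have hvE := S.ball_notMem hv1
      have hvc : v ∈ closedBall (0 : ℂ) 1 := ball_subset_closedBall hv1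
      refine (S.Fn_le n hvc hvE).trans ?_
      have h2 : 1 - ρ ≤ ‖v - ζ n‖ := by
        have h3 : ‖ζ n‖ ≤ ‖v‖ + ‖v - ζ n‖ := by
          calc ‖ζ n‖ = ‖v - (v - ζ n)‖ := by congr 1; ring
            _ ≤ _ := norm_sub_le _ _
        rw [S.norm n] at h3
        rw [mem_ball_zero_iff] at hv
        linarith
      exact div_le_div_of_nonneg_left (S.s_pos n).le (by linarith) h2
  have h2 : DifferentiableAt ℂ (fun z : ℂ => (1 - z)⁻¹) z := by
    have h3 : (1 - z) ≠ 0 := by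
      intro h
      have : z = 1 := (sub_eq_zero.1 h).symm
      rw [this, norm_one] at hz'
      exact lt_irrefl _ hz'
    exact (by fun_prop : DifferentiableAt ℂ (fun z : ℂ => 1 - z) z).inv h3
  unfold FF
  exact h2.add (h1.differentiableAt (isOpen_ball.mem_nhds hzρ))

lemma GG_re {z : ℂ} (hz : z ∈ closedBall (0 : ℂ) 1) : 0 ≤ (GG α η ζ z).re := by
  unfold GG
  split_ifs with h
  · simp
  · rw [Complex.inv_re]
    have := S.FF_re hz h
    have := Complex.normSq_nonneg (FF α η ζ z)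
    apply div_nonneg <;> linarith

lemma GG_re_pos {z : ℂ} (hz : z ∈ closedBall (0 : ℂ) 1) (hzE : z ∉ EE ζ) :
    0 < (GG α η ζ z).re := by
  unfold GG
  rw [if_neg hzE, Complex.inv_re]
  have h1 := S.FF_re hz hzE
  have := Complex.normSq_pos.2 (S.FF_ne hz hzE)
  apply div_pos <;> linarith

/-- the set is a peak set -/
theorem isPeakSet : IsPeakSet α (EE ζ) := by
  obtain ⟨C, hC, hG⟩ := S.GG_holder
  have hne : ∀ z ∈ closedBall (0 : ℂ) 1, 1 ≤ ‖1 + GG α η ζ z‖ := by
    intro z hz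
    have h1 : (1 + GG α η ζ z).re ≤ ‖1 + GG α η ζ z‖ := Complex.re_le_norm _
    rw [Complex.add_re, Complex.one_re] at h1
    linarith [S.GG_re hz]
  have hf : ∀ z ∈ closedBall (0 : ℂ) 1, ∀ v ∈ closedBall (0 : ℂ) 1,
      ‖(1 + GG α η ζ z)⁻¹ - (1 + GG α η ζ v)⁻¹‖ ≤ C * ‖z - v‖ ^ α := by
    intro z hz v hv
    have h1 := hne z hz
    have h2 := hne v hv
    have h3 : (1 + GG α η ζ z) ≠ 0 := norm_pos_iff.1 (by linarith)
    have h4 : (1 + GG α η ζ v) ≠ 0 := norm_pos_iff.1 (by linarith)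
    have e : (1 + GG α η ζ z)⁻¹ - (1 + GG α η ζ v)⁻¹ =
        -(GG α η ζ z - GG α η ζ v) / ((1 + GG α η ζ z) * (1 + GG α η ζ v)) := by
      field_simp
      ring
    rw [e, norm_div, norm_neg, norm_mul]
    refine le_trans ?_ (hG z hz v hv)
    apply div_le_self (norm_nonneg _)
    nlinarith
  refine ⟨S.isClosed_E, S.E_sphere, fun z => (1 + GG α η ζ z)⁻¹, ⟨?_, ?_, C, ?_⟩, ?_, ?_⟩
  · have h1 : DifferentiableOn ℂ (fun z => (1 + (FF α η ζ z)⁻¹)⁻¹) (ball (0 : ℂ) 1) := by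
      refine DifferentiableOn.inv ?_ ?_
      · refine (differentiableOn_const _).add (S.FF_diff.inv ?_)
        intro z hz
        exact S.FF_ne (ball_subset_closedBall hz) (S.ball_notMem hz)
      · intro z hz
        have h1 := hne z (ball_subset_closedBall hz)
        have h2 : GG α η ζ z = (FF α η ζ z)⁻¹ := by
          unfold GG
          rw [if_neg (S.ball_notMem hz)]
        rw [h2] at h1
        exact norm_pos_iff.1 (by linarith)
    refine h1.congr fun z hz => ?_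
    have h2 : GG α η ζ z = (FF α η ζ z)⁻¹ := by
      unfold GG
      rw [if_neg (S.ball_notMem hz)]
    rw [h2]
  · intro z hz
    rw [ContinuousWithinAt, tendsto_iff_norm_sub_tendsto_zero]
    have h1 : Tendsto (fun v : ℂ => C * ‖v - z‖ ^ α) (𝓝[closedBall (0 : ℂ) 1] z) (𝓝 0) := by
      have h2 : ContinuousAt (fun v : ℂ => C * ‖v - z‖ ^ α) z := by
        apply ContinuousAt.mul continuousAt_const
        apply ContinuousAt.rpow_const _ (Or.inr S.hα0.le)
        fun_prop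
      have h3 := h2.tendsto
      simp only [sub_self, norm_zero, Real.zero_rpow S.hα0.ne', mul_zero] at h3
      exact h3.mono_left nhdsWithin_le_nhds
    refine squeeze_zero' (Eventually.of_forall fun v => norm_nonneg _) ?_ h1
    filter_upwards [self_mem_nhdsWithin] with v hv
    exact hf v hv z hz
  · intro z hz v hv
    exact hf z (sphere_subset_closedBall hz) v (sphere_subset_closedBall hv)
  · intro z hz
    simp [GG, hz]
  · intro z hz
    have h1 := S.GG_re_pos (sphere_subset_closedBall hz.1) hz.2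
    have h2 : (1 + GG α η ζ z).re ≤ ‖1 + GG α η ζ z‖ := Complex.re_le_norm _
    rw [Complex.add_re, Complex.one_re] at h2
    show ‖(1 + GG α η ζ z)⁻¹‖ < 1
    rw [norm_inv]
    exact inv_lt_one_of_one_lt₀ (by linarith)

end Sys

end Pool.Agent.P8H73.Pk
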