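import Mathlib

/-!
# Lower bound for the circle averages of `log |f|` and comparison with a majorant
-/

set_option autoImplicit false

open Complex Filter Topology Metric Set Real MeromorphicOn

namespace Pool.Agent.P8H73.Pk

/-- the circle averages of `log |f|` are bounded below for `1/2 ≤ r < 1` -/
theorem jensen_lower {f : ℂ → ℂ} (hf : DifferentiableOn ℂ f (ball (0 : ℂ) 1)) :
    ∃ c : ℝ, ∀ r : ℝ, 1 / 2 ≤ r → r < 1 → c ≤ circleAverage (Real.log ‖f ·‖) 0 r := by
  have han : AnalyticOnNhd ℂ f (ball (0 : ℂ) 1) := hf.analyticOnNhd isOpen_ball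
  set d : ℤ := (meromorphicOrderAt f 0).untop₀ with hd
  refine ⟨d * Real.log (1 / 2) + Real.log ‖meromorphicTrailingCoeffAt f 0‖, fun r hr hr1 => ?_⟩
  have hr0 : 0 < r := by linarith
  have habs : |r| = r := abs_of_pos hr0
  have hsub : closedBall (0 : ℂ) |r| ⊆ ball (0 : ℂ) 1 := by
    rw [habs]
    exact closedBall_subset_ball hr1
  have hanr : AnalyticOnNhd ℂ f (closedBall (0 : ℂ) |r|) := han.mono hsub
  rw [hanr.meromorphicOn.circleAverage_log_norm hr0.ne']
  have h0mem : (0 : ℂ) ∈ closedBall (0 : ℂ) |r| := by simp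
  have hdiv0 : divisor f (closedBall (0 : ℂ) |r|) 0 = d := by
    rw [divisor_apply hanr.meromorphicOn h0mem]
  have hnonneg : ∀ u, 0 ≤ divisor f (closedBall (0 : ℂ) |r|) u := by
    intro u
    exact hanr.divisor_nonneg u
  have hd0 : 0 ≤ d := by rw [← hdiv0]; exact hnonneg 0
  have hsum : 0 ≤ ∑ᶠ u, (divisor f (closedBall (0 : ℂ) |r|) u : ℝ) *
      Real.log (r * ‖(0 : ℂ) - u‖⁻¹) := by
    apply finsum_nonneg
    intro u
    by_cases hu : u ∈ closedBall (0 : ℂ) |r|
    · apply mul_nonneg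
      · exact_mod_cast hnonneg u
      · by_cases hu0 : u = 0
        · simp [hu0]
        · apply Real.log_nonneg
          have h1 : 0 < ‖(0 : ℂ) - u‖ := by simpa using hu0
          rw [← div_eq_mul_inv, le_div_iff₀ h1, one_mul]
          rw [mem_closedBall, dist_comm, dist_eq_norm, habs] at hu
          exact hu
    · have : divisor f (closedBall (0 : ℂ) |r|) u = 0 :=
        Function.locallyFinsuppWithin.apply_eq_zero_of_notMem _ hu
      simp [this]
  rw [hdiv0]
  have hlog : Real.log (1 / 2) ≤ Real.log r := Real.log_le_log (by norm_num) hr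
  have hd0' : (0 : ℝ) ≤ d := by exact_mod_cast hd0
  have := mul_le_mul_of_nonneg_left hlog hd0'
  linarith

/-- comparison with a majorant -/
theorem average_le {f : ℂ → ℂ} (hf : DifferentiableOn ℂ f (ball (0 : ℂ) 1))
    (hne : ∃ z ∈ ball (0 : ℂ) 1, f z ≠ 0) {r : ℝ} (hr0 : 0 < r) (hr1 : r < 1) {u : ℂ → ℝ}
    (hu : ContinuousOn u (sphere (0 : ℂ) r))
    (h : ∀ z ∈ sphere (0 : ℂ) r, f z ≠ 0 → Real.log ‖f z‖ ≤ u z) :
    circleAverage (Real.log ‖f ·‖) 0 r ≤ circleAverage u 0 r := by
  classical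
  have han : AnalyticOnNhd ℂ f (ball (0 : ℂ) 1) := hf.analyticOnNhd isOpen_ball
  have habs : |r| = r := abs_of_pos hr0
  have hsub : sphere (0 : ℂ) |r| ⊆ ball (0 : ℂ) 1 := by
    rw [habs]
    exact sphere_subset_closedBall.trans (closedBall_subset_ball hr1)
  obtain ⟨z0, hz0, hfz0⟩ := hne
  have hconn : IsConnected (ball (0 : ℂ) 1) :=
    ⟨⟨0, by simp⟩, (convex_ball (0 : ℂ) 1).isPreconnected⟩
  have h1 := han.preimage_zero_mem_codiscreteWithin hfz0 hz0 hconn
  have h2 : f ⁻¹' {0}ᶜ ∈ codiscreteWithin (sphere (0 : ℂ) |r|) := codiscreteWithin_mono hsub h1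
  set g : ℂ → ℝ := fun z => if f z = 0 then u z else Real.log ‖f z‖ with hg
  have heq : (fun z => Real.log ‖f z‖) =ᶠ[codiscreteWithin (sphere (0 : ℂ) |r|)] g := by
    filter_upwards [h2] with z hz
    have : f z ≠ 0 := hz
    simp [hg, this]
  have hint : CircleIntegrable (fun z => Real.log ‖f z‖) 0 r :=
    (han.mono hsub).meromorphicOn.circleIntegrable_log_norm
  have hintg : CircleIntegrable g 0 r := CircleIntegrable.congr_codiscreteWithin heq hint
  have hintu : CircleIntegrable u 0 r := hu.circleIntegrable hr0.le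
  rw [circleAverage_congr_codiscreteWithin heq hr0.ne']
  refine circleAverage_mono hintg hintu fun z hz => ?_
  rw [habs] at hz
  simp only [hg]
  split_ifs with hz0
  · exact le_refl _
  · exact h z hz hz0

end Pool.Agent.P8H73.Pk
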