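import Pool.Agent.P8H73.Pk.Gev
import Pool.Agent.P8H73.Pk.Jen

/-!
# A set on which the integrals of `dist ^ (-α)` diverge is no zero set for the Gevrey class
-/

set_option autoImplicit false

open Complex Filter Topology Metric Set Real

namespace Pool.Agent.P8H73.Pk

/-- the distance function to the power `-α` -/
noncomputable def hh (α : ℝ) (E : Set ℂ) (r θ : ℝ) : ℝ := infDist (circleMap 0 r θ) E ^ (-α)

lemma infDist_pos_of {E : Set ℂ} (hE : IsCompact E) (hEs : E ⊆ sphere (0 : ℂ) 1)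
    (hne : E.Nonempty) {z : ℂ} (hz : z ∈ ball (0 : ℂ) 1) : 0 < infDist z E := by
  refine (hE.isClosed.notMem_iff_infDist_pos hne).1 fun h => ?_
  have h1 := hEs h
  rw [mem_sphere_zero_iff_norm] at h1
  rw [mem_ball_zero_iff] at hz
  linarith

theorem not_zero_of_div {α : ℝ} (hα : 0 < α) {E : Set ℂ} (hE : IsCompact E)
    (hEs : E ⊆ sphere (0 : ℂ) 1) (hne : E.Nonempty)
    (hdiv : ∀ B : ℝ, ∃ r : ℝ, 1 / 2 ≤ r ∧ r < 1 ∧ B ≤ ∫ θ in (0 : ℝ)..(2 * π), hh α E r θ) :
    ¬ IsGevreyZeroSet α E := by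
  rintro ⟨f, hf, hfne, hlim⟩
  obtain ⟨A, D, hA, hD, hdec⟩ := exp_decay hα hf
  obtain ⟨c, hc⟩ := jensen_lower hf.1
  -- choose the radius
  obtain ⟨r, hr, hr1, hB⟩ := hdiv ((2 * π) * D ^ α * (Real.log A - c + 1))
  have hr0 : 0 < r := by linarith
  have hsub : sphere (0 : ℂ) r ⊆ ball (0 : ℂ) 1 :=
    sphere_subset_closedBall.trans (closedBall_subset_ball hr1)
  set u : ℂ → ℝ := fun z => Real.log A - D ^ (-α) * infDist z E ^ (-α) with hu
  have hucont : ContinuousOn u (sphere (0 : ℂ) r) := by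
    intro z hz
    have hpos := infDist_pos_of hE hEs hne (hsub hz)
    apply ContinuousAt.continuousWithinAt
    apply ContinuousAt.sub continuousAt_const
    apply ContinuousAt.mul continuousAt_const
    exact (continuous_infDist_pt E).continuousAt.rpow_const (Or.inl hpos.ne')
  have hub : ∀ z ∈ sphere (0 : ℂ) r, f z ≠ 0 → Real.log ‖f z‖ ≤ u z := by
    intro z hz hfz
    have hz1 := hsub hz
    obtain ⟨ζ, hζE, hζ⟩ := hE.exists_infDist_eq_dist hne z
    have hζn : ‖ζ‖ = 1 := mem_sphere_zero_iff_norm.1 (hEs hζE)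
    have h1 := hdec ζ hζn (fun n => hlim n ζ hζE) z hz1
    have hpos := infDist_pos_of hE hEs hne hz1
    rw [dist_eq_norm] at hζ
    rw [← hζ] at h1
    have h2 : 0 < ‖f z‖ := norm_pos_iff.2 hfz
    calc Real.log ‖f z‖ ≤ Real.log (A * Real.exp (-((D * infDist z E) ^ (-α)))) :=
          Real.log_le_log h2 h1
      _ = u z := by
          rw [Real.log_mul hA.ne' (Real.exp_pos _).ne', Real.log_exp,
            Real.mul_rpow hD.le hpos.le]
          simp only [hu]
          ring
  have h1 := average_le hf.1 hfne hr0 hr1 hucont hub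
  have h2 := hc r hr hr1
  have h3 : circleAverage u 0 r = Real.log A -
      D ^ (-α) * ((2 * π)⁻¹ * ∫ θ in (0 : ℝ)..(2 * π), hh α E r θ) := by
    have hint : IntervalIntegrable (fun θ => hh α E r θ) MeasureTheory.volume 0 (2 * π) := by
      apply Continuous.intervalIntegrable
      unfold hh
      apply Continuous.rpow_const
      · exact (continuous_infDist_pt E).comp (continuous_circleMap 0 r)
      · intro θ
        left
        have : circleMap 0 r θ ∈ sphere (0 : ℂ) r := circleMap_mem_sphere 0 hr0.le θ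
        exact (infDist_pos_of hE hEs hne (hsub this)).ne'
    unfold circleAverage
    have e : (fun θ => u (circleMap 0 r θ)) = fun θ => Real.log A - D ^ (-α) * hh α E r θ := by
      funext θ
      simp only [hu, hh]
    rw [e, intervalIntegral.integral_sub (by simp) (hint.const_mul _),
      intervalIntegral.integral_const, intervalIntegral.integral_const_mul]
    simp only [smul_eq_mul, sub_zero]
    have hpi : (2 * π) ≠ 0 := by positivity
    field_simp
  rw [h3] at h1
  set J := ∫ θ in (0 : ℝ)..(2 * π), hh α E r θ with hJ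
  have h4 : Real.log A - c + 1 ≤ D ^ (-α) * ((2 * π)⁻¹ * J) := by
    have h5 : D ^ (-α) * ((2 * π)⁻¹ * ((2 * π) * D ^ α * (Real.log A - c + 1))) ≤
        D ^ (-α) * ((2 * π)⁻¹ * J) := by
      apply mul_le_mul_of_nonneg_left _ (by positivity)
      exact mul_le_mul_of_nonneg_left hB (by positivity)
    have h6 : D ^ (-α) * D ^ α = 1 := by rw [← Real.rpow_add hD]; norm_num
    have h7 : D ^ (-α) * ((2 * π)⁻¹ * ((2 * π) * D ^ α * (Real.log A - c + 1))) =
        (D ^ (-α) * D ^ α) * (Real.log A - c + 1) := by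
      have hpi : (2 * π) ≠ 0 := by positivity
      field_simp
    rw [h7, h6, one_mul] at h5
    exact h5
  linarith

/-- continuity of `hh` -/
lemma hh_cont {α : ℝ} {E : Set ℂ} (hE : IsCompact E) (hEs : E ⊆ sphere (0 : ℂ) 1)
    (hne : E.Nonempty) {r : ℝ} (hr0 : 0 ≤ r) (hr1 : r < 1) : Continuous (hh α E r) := by
  have hsub : sphere (0 : ℂ) r ⊆ ball (0 : ℂ) 1 :=
    sphere_subset_closedBall.trans (closedBall_subset_ball hr1)
  unfold hh
  apply Continuous.rpow_const
  · exact (continuous_infDist_pt E).comp (continuous_circleMap 0 r)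
  · intro θ
    left
    have : circleMap 0 r θ ∈ sphere (0 : ℂ) r := circleMap_mem_sphere 0 hr0 θ
    exact (infDist_pos_of hE hEs hne (hsub this)).ne'

lemma hh_nonneg {α : ℝ} {E : Set ℂ} (r θ : ℝ) : 0 ≤ hh α E r θ := by
  unfold hh
  have := infDist_nonneg (x := circleMap 0 r θ) (s := E)
  positivity

/-- lower bound for `hh` near a point of the set -/
lemma hh_ge {α : ℝ} (hα : 0 < α) {E : Set ℂ} (hE : IsCompact E) (hEs : E ⊆ sphere (0 : ℂ) 1)
    (hne : E.Nonempty) {r θ x : ℝ} (hr0 : 0 ≤ r) (hr1 : r < 1)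
    (hx : Complex.exp ((x : ℂ) * I) ∈ E) {ℓ : ℝ} (h1 : 1 - r ≤ ℓ) (h2 : |θ - x| ≤ ℓ) :
    (2 * ℓ) ^ (-α) ≤ hh α E r θ := by
  have hmem : circleMap 0 r θ ∈ ball (0 : ℂ) 1 := by
    rw [mem_ball_zero_iff, norm_circleMap_zero, abs_of_nonneg hr0]
    exact hr1
  have hpos := infDist_pos_of hE hEs hne hmem
  unfold hh
  apply Real.rpow_le_rpow_of_nonpos hpos _ (by linarith)
  refine (infDist_le_dist_of_mem hx).trans ?_
  rw [dist_eq_norm]
  have e : circleMap 0 r θ - Complex.exp ((x : ℂ) * I) =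
      (Complex.exp ((θ : ℂ) * I) - Complex.exp ((x : ℂ) * I)) -
        ((1 - r : ℝ) : ℂ) * Complex.exp ((θ : ℂ) * I) := by
    unfold circleMap
    push_cast
    ring
  have h3 : ‖Complex.exp ((θ : ℂ) * I) - Complex.exp ((x : ℂ) * I)‖ ≤ |θ - x| := by
    have h4 : Complex.exp ((θ : ℂ) * I) - Complex.exp ((x : ℂ) * I) =
        Complex.exp ((x : ℂ) * I) * (Complex.exp (I * ((θ - x : ℝ) : ℂ)) - 1) := by
      rw [mul_sub, ← Complex.exp_add, mul_one]
      congr 2
      push_cast
      ring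
    rw [h4, norm_mul, Complex.norm_exp_ofReal_mul_I, one_mul]
    have := Real.norm_exp_I_mul_ofReal_sub_one_le (x := θ - x)
    rwa [Real.norm_eq_abs] at this
  rw [e]
  calc ‖(Complex.exp ((θ : ℂ) * I) - Complex.exp ((x : ℂ) * I)) -
        ((1 - r : ℝ) : ℂ) * Complex.exp ((θ : ℂ) * I)‖
      ≤ ‖Complex.exp ((θ : ℂ) * I) - Complex.exp ((x : ℂ) * I)‖ +
        ‖((1 - r : ℝ) : ℂ) * Complex.exp ((θ : ℂ) * I)‖ := norm_sub_le _ _
    _ ≤ ℓ + ℓ := by
        apply add_le_add (h3.trans h2)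
        rw [norm_mul, Complex.norm_exp_ofReal_mul_I, mul_one, Complex.norm_real,
          Real.norm_of_nonneg (by linarith)]
        exact h1
    _ = 2 * ℓ := by ring

/-- the case `α = 1` -/
theorem not_zero_one : ¬ IsGevreyZeroSet 1 {(1 : ℂ)} := by
  have hE : IsCompact ({(1 : ℂ)} : Set ℂ) := isCompact_singleton
  have hEs : ({(1 : ℂ)} : Set ℂ) ⊆ sphere (0 : ℂ) 1 := by
    intro z hz
    rw [mem_singleton_iff] at hz
    rw [hz]
    simp
  have hne : ({(1 : ℂ)} : Set ℂ).Nonempty := ⟨1, rfl⟩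
  refine not_zero_of_div one_pos hE hEs hne fun B => ?_
  set δ := min (1 / 2) (Real.exp (-(2 * |B|))) with hδ
  have hδ0 : 0 < δ := lt_min (by norm_num) (Real.exp_pos _)
  have hδ1 : δ ≤ 1 / 2 := min_le_left _ _
  refine ⟨1 - δ, by linarith, by linarith, ?_⟩
  have hcont : Continuous (hh 1 {(1 : ℂ)} (1 - δ)) :=
    hh_cont hE hEs hne (by linarith) (by linarith)
  have hpi := Real.pi_gt_three
  have h1 : ∫ θ in δ..1, hh 1 {(1 : ℂ)} (1 - δ) θ ≤
      ∫ θ in (0 : ℝ)..(2 * π), hh 1 {(1 : ℂ)} (1 - δ) θ := by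
    apply intervalIntegral.integral_mono_interval hδ0.le (by linarith) (by linarith)
    · exact Filter.Eventually.of_forall fun θ => hh_nonneg _ _
    · exact hcont.intervalIntegrable _ _
  have h2 : ∫ θ in δ..1, (1 / 2 : ℝ) * θ⁻¹ ≤ ∫ θ in δ..1, hh 1 {(1 : ℂ)} (1 - δ) θ := by
    apply intervalIntegral.integral_mono_on (by linarith)
    · apply ContinuousOn.intervalIntegrable
      intro θ hθ
      rw [uIcc_of_le (by linarith)] at hθ
      apply ContinuousAt.continuousWithinAt
      have : θ ≠ 0 := by linarith [hθ.1]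
      fun_prop (disch := assumption)
    · exact hcont.intervalIntegrable _ _
    · intro θ hθ
      have h3 := hh_ge (α := 1) (x := 0) (θ := θ) (ℓ := θ) one_pos hE hEs hne
        (by linarith : (0 : ℝ) ≤ 1 - δ) (by linarith) (by simp) (by linarith [hθ.1])
        (by rw [sub_zero, abs_of_nonneg (by linarith [hθ.1])])
      refine le_trans (le_of_eq ?_) h3
      rw [Real.rpow_neg_one]
      have : θ ≠ 0 := by linarith [hθ.1]
      field_simp
  have h3 : ∫ θ in δ..1, (1 / 2 : ℝ) * θ⁻¹ = 1 / 2 * Real.log (1 / δ) := by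
    rw [intervalIntegral.integral_const_mul, integral_inv_of_pos hδ0 one_pos]
  have h4 : 2 * |B| ≤ Real.log (1 / δ) := by
    rw [one_div, Real.log_inv]
    have h5 : Real.log δ ≤ -(2 * |B|) := by
      calc Real.log δ ≤ Real.log (Real.exp (-(2 * |B|))) :=
            Real.log_le_log hδ0 (min_le_right _ _)
        _ = _ := Real.log_exp _
    linarith
  have h5 := le_abs_self B
  linarith

/-- the case `α = 1` -/
theorem isPeakSet_one : IsPeakSet 1 {(1 : ℂ)} := by
  refine ⟨isClosed_singleton, ?_, fun z => (1 + z) / 2, ⟨?_, ?_, 1, ?_⟩, ?_, ?_⟩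
  · intro z hz
    rw [mem_singleton_iff] at hz
    rw [hz]
    simp
  · fun_prop
  · fun_prop
  · intro z _ w _
    have e : (1 + z) / 2 - (1 + w) / 2 = (z - w) / 2 := by ring
    rw [e, norm_div, Real.rpow_one, one_mul]
    have : ‖(2 : ℂ)‖ = 2 := by simp
    rw [this]
    have := norm_nonneg (z - w)
    linarith
  · intro z hz
    rw [mem_singleton_iff] at hz
    rw [hz]
    norm_num
  · rintro z ⟨hz, hz1⟩
    have hzn : ‖z‖ = 1 := mem_sphere_zero_iff_norm.1 hz
    have hz1' : z ≠ 1 := hz1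
    have h2 : ‖(2 : ℂ)‖ = 2 := by simp
    show ‖(1 + z) / 2‖ < 1
    rw [norm_div, h2, div_lt_one (by norm_num)]
    have h3 : ‖1 + z‖ ^ 2 < 2 ^ 2 := by
      have h4 : ‖1 + z‖ ^ 2 = 2 + 2 * z.re := by
        rw [← Complex.normSq_eq_norm_sq, Complex.normSq_apply]
        have h5 : ‖z‖ ^ 2 = 1 := by rw [hzn]; norm_num
        rw [← Complex.normSq_eq_norm_sq, Complex.normSq_apply] at h5
        simp only [Complex.add_re, Complex.one_re, Complex.add_im, Complex.one_im, zero_add]
        nlinarith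
      have h6 : z.re < 1 := by
        have h7 : z.re ≤ 1 := (Complex.re_le_norm z).trans hzn.le
        rcases h7.lt_or_eq with h8 | h8
        · exact h8
        · exfalso
          apply hz1'
          have h5 : ‖z‖ ^ 2 = 1 := by rw [hzn]; norm_num
          rw [← Complex.normSq_eq_norm_sq, Complex.normSq_apply, h8] at h5
          apply Complex.ext
          · simpa using h8
          · simp only [Complex.one_im]
            nlinarith
      rw [h4]
      linarith
    exact lt_of_pow_lt_pow_left₀ 2 (by norm_num) h3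

end Pool.Agent.P8H73.Pk
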