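import Mathlib

/-!
# The local singularity `1 / (w ^ α + w / s)`
-/

set_option autoImplicit false

open Complex

namespace Pool.Agent.P8H73.Pk

/-- `w ^ α + w / s` -/
noncomputable def gg (α s : ℝ) (w : ℂ) : ℂ := w ^ (α : ℂ) + w / (s : ℂ)

lemma cpow_eq {α : ℝ} {w : ℂ} (hw : w ≠ 0) :
    w ^ (α : ℂ) = ((‖w‖ ^ α : ℝ) : ℂ) * Complex.exp ((α * w.arg : ℝ) * I) := by
  have h1 : Complex.log w = ((Real.log ‖w‖ : ℝ) : ℂ) + (w.arg : ℂ) * I := by
    rw [Complex.log]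
  rw [Complex.cpow_def_of_ne_zero hw, h1, Real.rpow_def_of_pos (norm_pos_iff.2 hw),
    Complex.ofReal_exp, ← Complex.exp_add]
  congr 1
  push_cast
  ring

lemma abs_arg_le {w : ℂ} (hre : 0 ≤ w.re) : |w.arg| ≤ Real.pi / 2 :=
  Complex.abs_arg_le_pi_div_two_iff.2 hre

lemma cpow_re {α : ℝ} (hα0 : 0 < α) (hα1 : α < 1) {w : ℂ} (hw : w ≠ 0) (hre : 0 ≤ w.re) :
    Real.cos (α * (Real.pi / 2)) * ‖w‖ ^ α ≤ (w ^ (α : ℂ)).re := by
  rw [cpow_eq hw, Complex.re_ofReal_mul, Complex.exp_ofReal_mul_I_re, mul_comm]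
  have hn : 0 ≤ ‖w‖ ^ α := by positivity
  refine mul_le_mul_of_nonneg_left ?_ hn
  have h1 := abs_arg_le hre
  have hpi := Real.pi_pos
  rw [← Real.cos_abs (α * w.arg), abs_mul, abs_of_pos hα0]
  apply Real.cos_le_cos_of_nonneg_of_le_pi
  · positivity
  · nlinarith
  · exact mul_le_mul_of_nonneg_left h1 hα0.le

lemma cos_pos' {α : ℝ} (hα0 : 0 < α) (hα1 : α < 1) : 0 < Real.cos (α * (Real.pi / 2)) := by
  have hpi := Real.pi_pos
  apply Real.cos_pos_of_mem_Ioo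
  constructor <;> nlinarith

lemma cross_re {α : ℝ} (hα0 : 0 < α) (hα1 : α < 1) {w : ℂ} (hw : w ≠ 0) (hre : 0 ≤ w.re) :
    0 ≤ (w ^ (α : ℂ) * (starRingEnd ℂ) w).re := by
  have h2 : (starRingEnd ℂ) w = ((‖w‖ : ℝ) : ℂ) * Complex.exp ((-w.arg : ℝ) * I) := by
    conv_lhs => rw [← Complex.norm_mul_exp_arg_mul_I w]
    rw [map_mul, Complex.conj_ofReal, ← Complex.exp_conj, map_mul, Complex.conj_ofReal,
      Complex.conj_I]
    congr 2
    push_cast
    ring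
  rw [cpow_eq hw, h2]
  have h3 : ((‖w‖ ^ α : ℝ) : ℂ) * Complex.exp ((α * w.arg : ℝ) * I) *
      (((‖w‖ : ℝ) : ℂ) * Complex.exp ((-w.arg : ℝ) * I)) =
      ((‖w‖ ^ α * ‖w‖ : ℝ) : ℂ) * Complex.exp (((α - 1) * w.arg : ℝ) * I) := by
    have : Complex.exp (((α - 1) * w.arg : ℝ) * I) =
        Complex.exp ((α * w.arg : ℝ) * I) * Complex.exp ((-w.arg : ℝ) * I) := by
      rw [← Complex.exp_add]
      congr 1
      push_cast
      ring
    rw [this]
    push_cast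
    ring
  rw [h3, Complex.re_ofReal_mul, Complex.exp_ofReal_mul_I_re]
  have h1 := abs_arg_le hre
  have hpi := Real.pi_pos
  have h4 : 0 ≤ Real.cos ((α - 1) * w.arg) := by
    apply Real.cos_nonneg_of_neg_pi_div_two_le_of_le
    · have : |(α - 1) * w.arg| ≤ Real.pi / 2 := by
        rw [abs_mul]
        have h5 : |α - 1| ≤ 1 := by rw [abs_le]; constructor <;> linarith
        calc |α - 1| * |w.arg| ≤ 1 * (Real.pi / 2) := by
              apply mul_le_mul h5 h1 (abs_nonneg _) zero_le_one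
          _ = _ := one_mul _
      exact (abs_le.1 this).1
    · have : |(α - 1) * w.arg| ≤ Real.pi / 2 := by
        rw [abs_mul]
        have h5 : |α - 1| ≤ 1 := by rw [abs_le]; constructor <;> linarith
        calc |α - 1| * |w.arg| ≤ 1 * (Real.pi / 2) := by
              apply mul_le_mul h5 h1 (abs_nonneg _) zero_le_one
          _ = _ := one_mul _
      exact (abs_le.1 this).2
  positivity

section
variable {α s : ℝ} (hα0 : 0 < α) (hα1 : α < 1) (hs : 0 < s) {w : ℂ} (hw : w ≠ 0)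
  (hre : 0 ≤ w.re)
include hα0 hα1 hs hw hre

lemma gg_sq : (‖w‖ ^ α) ^ 2 + (‖w‖ / s) ^ 2 ≤ ‖gg α s w‖ ^ 2 := by
  have h1 : ‖gg α s w‖ ^ 2 = ‖w ^ (α : ℂ)‖ ^ 2 + ‖w / (s : ℂ)‖ ^ 2 +
      2 * (w ^ (α : ℂ) * (starRingEnd ℂ) (w / (s : ℂ))).re := by
    unfold gg
    rw [← Complex.normSq_eq_norm_sq, ← Complex.normSq_eq_norm_sq, ← Complex.normSq_eq_norm_sq,
      Complex.normSq_add]
  have h2 : (w ^ (α : ℂ) * (starRingEnd ℂ) (w / (s : ℂ))).re =
      (w ^ (α : ℂ) * (starRingEnd ℂ) w).re / s := by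
    rw [map_div₀, Complex.conj_ofReal, ← mul_div_assoc, Complex.div_ofReal_re]
  have h3 := cross_re hα0 hα1 hw hre
  have h4 : ‖w / (s : ℂ)‖ = ‖w‖ / s := by
    rw [norm_div, Complex.norm_real, Real.norm_of_nonneg hs.le]
  rw [h1, h2, h4, Complex.norm_cpow_real]
  have : 0 ≤ (w ^ (α : ℂ) * (starRingEnd ℂ) w).re / s := by positivity
  linarith

lemma gg_ge_pow : ‖w‖ ^ α ≤ ‖gg α s w‖ := by
  have h := gg_sq hα0 hα1 hs hw hre
  have h1 : (‖w‖ ^ α) ^ 2 ≤ ‖gg α s w‖ ^ 2 := by nlinarith [sq_nonneg (‖w‖ / s)]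
  exact (pow_le_pow_iff_left₀ (by positivity) (norm_nonneg _) two_ne_zero).1 h1

lemma gg_ge_lin : ‖w‖ / s ≤ ‖gg α s w‖ := by
  have h := gg_sq hα0 hα1 hs hw hre
  have h1 : (‖w‖ / s) ^ 2 ≤ ‖gg α s w‖ ^ 2 := by nlinarith [sq_nonneg (‖w‖ ^ α)]
  exact (pow_le_pow_iff_left₀ (by positivity) (norm_nonneg _) two_ne_zero).1 h1

lemma gg_pos : 0 < ‖gg α s w‖ :=
  lt_of_lt_of_le (by have := norm_pos_iff.2 hw; positivity) (gg_ge_pow hα0 hα1 hs hw hre)

lemma gg_ne : gg α s w ≠ 0 := norm_pos_iff.1 (gg_pos hα0 hα1 hs hw hre)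

lemma gg_re : Real.cos (α * (Real.pi / 2)) * ‖w‖ ^ α ≤ (gg α s w).re := by
  unfold gg
  rw [Complex.add_re, Complex.div_ofReal_re]
  have h1 := cpow_re hα0 hα1 hw hre
  have h2 : 0 ≤ w.re / s := by positivity
  linarith

lemma gg_re_nonneg : 0 ≤ (gg α s w).re := by
  have h1 := gg_re hα0 hα1 hs hw hre
  have h2 := cos_pos' hα0 hα1
  have : 0 ≤ Real.cos (α * (Real.pi / 2)) * ‖w‖ ^ α := by positivity
  linarith

end

lemma gg_le {α s : ℝ} (hs : 0 < s) (w : ℂ) : ‖gg α s w‖ ≤ ‖w‖ ^ α + ‖w‖ / s := by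
  unfold gg
  refine (norm_add_le _ _).trans ?_
  rw [Complex.norm_cpow_real, norm_div, Complex.norm_real, Real.norm_of_nonneg hs.le]

/-- variation of the power -/
lemma cpow_sub_le {α : ℝ} (hα0 : 0 < α) (hα1 : α < 1) {w v : ℂ} (hw : w ≠ 0)
    (hre : 0 ≤ w.re) (hvre : 0 ≤ v.re) (hd : ‖v - w‖ ≤ ‖w‖ / 2) :
    ‖v ^ (α : ℂ) - w ^ (α : ℂ)‖ ≤ 2 * ‖w‖ ^ (α - 1) * ‖v - w‖ := by
  have hwn : 0 < ‖w‖ := norm_pos_iff.2 hw
  set S : Set ℂ := {u : ℂ | 0 ≤ u.re} ∩ Metric.closedBall w (‖w‖ / 2) with hS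
  have hconv : Convex ℝ S := by
    apply Convex.inter
    · exact convex_halfSpace_re_ge 0
    · exact convex_closedBall _ _
  have hnorm : ∀ u ∈ S, ‖w‖ / 2 ≤ ‖u‖ := by
    intro u hu
    have h1 := hu.2
    rw [Metric.mem_closedBall, dist_eq_norm] at h1
    have h2 : ‖w‖ ≤ ‖u‖ + ‖u - w‖ := by
      calc ‖w‖ = ‖u - (u - w)‖ := by congr 1; ring
        _ ≤ _ := norm_sub_le _ _
    linarith
  have hslit : ∀ u ∈ S, u ∈ Complex.slitPlane := by
    intro u hu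
    have h1 := hnorm u hu
    have hu0 : u ≠ 0 := by
      rintro rfl
      simp at h1
      linarith
    rw [Complex.mem_slitPlane_iff]
    by_cases h : 0 < u.re
    · exact Or.inl h
    · right
      intro him
      apply hu0
      apply Complex.ext
      · have := hu.1
        simp only [Set.mem_setOf_eq] at this
        simp; linarith
      · simpa using him
  have key := hconv.norm_image_sub_le_of_norm_hasDerivWithin_le
    (f := fun u : ℂ => u ^ (α : ℂ)) (f' := fun u => (α : ℂ) * u ^ ((α : ℂ) - 1))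
    (C := 2 * ‖w‖ ^ (α - 1)) (x := w) (y := v)
    (fun u hu => by
      have := ((hasDerivAt_id u).cpow_const (c := (α : ℂ)) (hslit u hu))
      simp only [id, mul_one] at this
      exact this.hasDerivWithinAt)
    (fun u hu => by
      have hu0 : u ≠ 0 := Complex.slitPlane_ne_zero (hslit u hu)
      have hupos : 0 < ‖u‖ := norm_pos_iff.2 hu0
      rw [norm_mul, Complex.norm_real, Real.norm_of_nonneg hα0.le]
      have e1 : ((α : ℂ) - 1) = ((α - 1 : ℝ) : ℂ) := by push_cast; ring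
      rw [e1, Complex.norm_cpow_real]
      have h2 : ‖u‖ ^ (α - 1) ≤ (‖w‖ / 2) ^ (α - 1) :=
        Real.rpow_le_rpow_of_nonpos (by positivity) (hnorm u hu) (by linarith)
      have h3 : (‖w‖ / 2) ^ (α - 1) = ‖w‖ ^ (α - 1) * 2 ^ (1 - α) := by
        rw [Real.div_rpow hwn.le (by norm_num), div_eq_mul_inv, ← Real.rpow_neg (by norm_num)]
        congr 2
        ring
      have h4 : (2 : ℝ) ^ (1 - α) ≤ 2 := by
        calc (2 : ℝ) ^ (1 - α) ≤ 2 ^ (1 : ℝ) :=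
              Real.rpow_le_rpow_of_exponent_le (by norm_num) (by linarith)
          _ = 2 := by norm_num
      have h5 : 0 < ‖w‖ ^ (α - 1) := by positivity
      calc α * ‖u‖ ^ (α - 1) ≤ 1 * (‖w‖ ^ (α - 1) * 2 ^ (1 - α)) := by
            apply mul_le_mul hα1.le (h2.trans h3.le) (by positivity) zero_le_one
        _ ≤ 2 * ‖w‖ ^ (α - 1) := by nlinarith)
    (show w ∈ S from ⟨hre, Metric.mem_closedBall_self (by positivity)⟩)
    (show v ∈ S from ⟨hvre, by rw [Metric.mem_closedBall, dist_eq_norm]; exact hd⟩)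
  exact key

/-- variation of the denominators -/
lemma gg_sub_le {α s : ℝ} (hα0 : 0 < α) (hα1 : α < 1) (hs : 0 < s) {w v : ℂ} (hw : w ≠ 0)
    (hre : 0 ≤ w.re) (hvre : 0 ≤ v.re) (hd : ‖v - w‖ ≤ ‖w‖ / 2) :
    ‖gg α s v - gg α s w‖ ≤ 3 * (‖v - w‖ / ‖w‖) * ‖gg α s w‖ := by
  have hwn : 0 < ‖w‖ := norm_pos_iff.2 hw
  have h1 := cpow_sub_le hα0 hα1 hw hre hvre hd
  have e : gg α s v - gg α s w = (v ^ (α : ℂ) - w ^ (α : ℂ)) + (v - w) / (s : ℂ) := by
    unfold gg; ring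
  have h2 : ‖(v - w) / (s : ℂ)‖ = ‖v - w‖ / s := by
    rw [norm_div, Complex.norm_real, Real.norm_of_nonneg hs.le]
  have h3 := gg_ge_pow hα0 hα1 hs hw hre
  have h4 := gg_ge_lin hα0 hα1 hs hw hre
  have h5 : ‖w‖ ^ (α - 1) = ‖w‖ ^ α / ‖w‖ := by
    rw [Real.rpow_sub hwn, Real.rpow_one]
  have h6 : 0 ≤ ‖v - w‖ / ‖w‖ := by positivity
  calc ‖gg α s v - gg α s w‖ ≤ 2 * ‖w‖ ^ (α - 1) * ‖v - w‖ + ‖v - w‖ / s := by
        rw [e]
        refine (norm_add_le _ _).trans ?_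
        rw [h2]
        linarith
    _ = (‖v - w‖ / ‖w‖) * (2 * ‖w‖ ^ α + ‖w‖ / s) := by
        rw [h5]
        field_simp
    _ ≤ (‖v - w‖ / ‖w‖) * (3 * ‖gg α s w‖) := by
        apply mul_le_mul_of_nonneg_left _ h6
        linarith
    _ = _ := by ring

end Pool.Agent.P8H73.Pk
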