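import Pool.Agent.P8H73.Pk.Pw

/-!
# The function `F = 1 / (1 - z) + ∑ 1 / (w_n ^ α + w_n / s_n)`
-/

set_option autoImplicit false

open Complex Filter Topology Metric Set

namespace Pool.Agent.P8H73.Pk

/-- the weights -/
noncomputable def wt {ι : Type} (α : ℝ) (ζ : ι → ℂ) (n : ι) : ℝ := ‖1 - ζ n‖ ^ ((1 - α) / α)

/-- the points and the conditions on them -/
structure Sys {ι : Type} (α : ℝ) (ζ : ι → ℂ) (η M : ℝ) : Prop where
  hα0 : 0 < α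
  hα1 : α < 1
  norm : ∀ n, ‖ζ n‖ = 1
  ne : ∀ n, ζ n ≠ 1
  inj : Function.Injective ζ
  ne' : Nonempty ι
  hη : 0 < η
  hη1 : η ≤ 1
  hM : 20 * (η * M) ≤ 1
  tot : ∀ t : Finset ι, ∑ n ∈ t, wt α ζ n ≤ M
  sep : ∀ (m : ι) (t : Finset ι), m ∉ t → ‖1 - ζ m‖ * ∑ n ∈ t, wt α ζ n / ‖ζ n - ζ m‖ ≤ M

/-- the terms of the series -/
noncomputable def Fn {ι : Type} (α η : ℝ) (ζ : ι → ℂ) (n : ι) (z : ℂ) : ℂ :=
  (gg α (η * wt α ζ n) (1 - (starRingEnd ℂ) (ζ n) * z))⁻¹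

/-- the function -/
noncomputable def FF {ι : Type} (α η : ℝ) (ζ : ι → ℂ) (z : ℂ) : ℂ :=
  (1 - z)⁻¹ + ∑' n, Fn α η ζ n z

/-- the set -/
def EE {ι : Type} (ζ : ι → ℂ) : Set ℂ := insert 1 (range ζ)

/-- the sum of the absolute values -/
noncomputable def AA {ι : Type} (α η : ℝ) (ζ : ι → ℂ) (z : ℂ) : ℝ :=
  ‖(1 - z)⁻¹‖ + ∑' n, ‖Fn α η ζ n z‖

namespace Sys

variable {ι : Type} {α : ℝ} {ζ : ι → ℂ} {η M : ℝ} (S : Sys α ζ η M)
include S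

lemma r_pos (n : ι) : 0 < ‖1 - ζ n‖ := norm_pos_iff.2 (sub_ne_zero.2 (S.ne n).symm)

lemma wt_pos (n : ι) : 0 < wt α ζ n := by
  unfold wt
  have := S.r_pos n
  positivity

lemma s_pos (n : ι) : 0 < η * wt α ζ n := mul_pos S.hη (S.wt_pos n)

lemma wt_le (n : ι) : wt α ζ n ≤ M := by
  have := S.tot {n}
  simpa using this

lemma M_pos : 0 < M := by
  obtain ⟨n⟩ := S.ne'
  exact lt_of_lt_of_le (S.wt_pos n) (S.wt_le n)

lemma s_le (n : ι) : η * wt α ζ n ≤ 1 / 20 := by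
  have h1 := mul_le_mul_of_nonneg_left (S.wt_le n) S.hη.le
  have h2 := S.hM
  linarith

lemma summable_wt : Summable (wt α ζ) :=
  summable_of_sum_le (fun n => (S.wt_pos n).le) S.tot

lemma w_norm (n : ι) (z : ℂ) : ‖1 - (starRingEnd ℂ) (ζ n) * z‖ = ‖z - ζ n‖ := by
  have h1 : (starRingEnd ℂ) (ζ n) * ζ n = 1 := by
    rw [mul_comm, Complex.mul_conj, Complex.normSq_eq_norm_sq, S.norm n]
    norm_num
  have h2 : 1 - (starRingEnd ℂ) (ζ n) * z = (starRingEnd ℂ) (ζ n) * (ζ n - z) := by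
    rw [mul_sub, h1]
  rw [h2, norm_mul, RCLike.norm_conj, S.norm n, one_mul, norm_sub_rev]

lemma w_re (n : ι) {z : ℂ} (hz : z ∈ closedBall (0 : ℂ) 1) :
    0 ≤ (1 - (starRingEnd ℂ) (ζ n) * z).re := by
  rw [Complex.sub_re, Complex.one_re]
  have h1 : ((starRingEnd ℂ) (ζ n) * z).re ≤ ‖(starRingEnd ℂ) (ζ n) * z‖ := Complex.re_le_norm _
  rw [norm_mul, RCLike.norm_conj, S.norm n, one_mul] at h1
  rw [mem_closedBall_zero_iff] at hz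
  linarith

lemma w_ne (n : ι) {z : ℂ} (hz : z ∉ EE ζ) : 1 - (starRingEnd ℂ) (ζ n) * z ≠ 0 := by
  rw [← norm_pos_iff, S.w_norm, norm_pos_iff, sub_ne_zero]
  rintro rfl
  exact hz (Or.inr ⟨n, rfl⟩)

lemma dist_pos (n : ι) {z : ℂ} (hz : z ∉ EE ζ) : 0 < ‖z - ζ n‖ := by
  rw [← S.w_norm]
  exact norm_pos_iff.2 (S.w_ne n hz)

lemma Fn_le (n : ι) {z : ℂ} (hz : z ∈ closedBall (0 : ℂ) 1) (hzE : z ∉ EE ζ) :
    ‖Fn α η ζ n z‖ ≤ η * wt α ζ n / ‖z - ζ n‖ := by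
  unfold Fn
  have h1 := gg_ge_lin S.hα0 S.hα1 (S.s_pos n) (S.w_ne n hzE) (S.w_re n hz)
  rw [S.w_norm] at h1
  have h2 := S.dist_pos n hzE
  have h3 := S.s_pos n
  rw [norm_inv, ← one_div_div ‖z - ζ n‖, ← one_div]
  exact one_div_le_one_div_of_le (by positivity) h1

lemma Fn_re (n : ι) {z : ℂ} (hz : z ∈ closedBall (0 : ℂ) 1) (hzE : z ∉ EE ζ) :
    0 ≤ (Fn α η ζ n z).re := by
  unfold Fn
  rw [Complex.inv_re]
  have := gg_re_nonneg S.hα0 S.hα1 (S.s_pos n) (S.w_ne n hzE) (S.w_re n hz)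
  have := Complex.normSq_nonneg (gg α (η * wt α ζ n) (1 - (starRingEnd ℂ) (ζ n) * z))
  positivity

lemma tendsto_one : Tendsto ζ cofinite (𝓝 1) := by
  have h1 : Tendsto (wt α ζ) cofinite (𝓝 0) := S.summable_wt.tendsto_cofinite_zero
  have h2 : Tendsto (fun n => (wt α ζ n) ^ (α / (1 - α))) cofinite (𝓝 0) := by
    have hp : 0 < α / (1 - α) := div_pos S.hα0 (by linarith [S.hα1])
    have := h1.rpow_const (p := α / (1 - α)) (Or.inr hp.le)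
    rwa [Real.zero_rpow hp.ne'] at this
  have h3 : Tendsto (fun n => ‖ζ n - 1‖) cofinite (𝓝 0) := by
    refine h2.congr fun n => ?_
    unfold wt
    rw [← Real.rpow_mul (norm_nonneg _), norm_sub_rev]
    have h0 := S.hα0
    have h1' := S.hα1
    have : (1 - α) / α * (α / (1 - α)) = 1 := by
      have : (1 - α) ≠ 0 := by linarith
      field_simp
    rw [this, Real.rpow_one]
  exact tendsto_iff_norm_sub_tendsto_zero.2 h3

lemma isClosed_E : IsClosed (EE ζ) := (S.tendsto_one.isCompact_insert_range_of_cofinite).isClosed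

omit S in
lemma E_nonempty : (EE ζ).Nonempty := ⟨1, Or.inl rfl⟩

lemma infDist_pos {z : ℂ} (hz : z ∉ EE ζ) : 0 < infDist z (EE ζ) :=
  (S.isClosed_E.notMem_iff_infDist_pos E_nonempty).1 hz

omit S in
lemma infDist_le_one' (z : ℂ) : infDist z (EE ζ) ≤ ‖1 - z‖ := by
  have := infDist_le_dist_of_mem (x := z) (show (1 : ℂ) ∈ EE ζ from Or.inl rfl)
  rwa [dist_comm, dist_eq_norm] at this

omit S in
lemma infDist_le_n (z : ℂ) (n : ι) : infDist z (EE ζ) ≤ ‖z - ζ n‖ := by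
  have := infDist_le_dist_of_mem (x := z) (show ζ n ∈ EE ζ from Or.inr ⟨n, rfl⟩)
  rwa [dist_eq_norm] at this

lemma summable_Fn {z : ℂ} (hz : z ∈ closedBall (0 : ℂ) 1) (hzE : z ∉ EE ζ) :
    Summable (fun n => ‖Fn α η ζ n z‖) := by
  have h1 := S.infDist_pos hzE
  refine Summable.of_nonneg_of_le (fun n => norm_nonneg _) (fun n => ?_)
    ((S.summable_wt.mul_left η).div_const (infDist z (EE ζ)))
  refine (S.Fn_le n hz hzE).trans ?_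
  exact div_le_div_of_nonneg_left (S.s_pos n).le h1 (infDist_le_n z n)

lemma summable_Fn' {z : ℂ} (hz : z ∈ closedBall (0 : ℂ) 1) (hzE : z ∉ EE ζ) :
    Summable (fun n => Fn α η ζ n z) := (S.summable_Fn hz hzE).of_norm

lemma re_tsum_nonneg {z : ℂ} (hz : z ∈ closedBall (0 : ℂ) 1) (hzE : z ∉ EE ζ) :
    0 ≤ (∑' n, Fn α η ζ n z).re := by
  rw [Complex.re_tsum (S.summable_Fn' hz hzE)]
  exact tsum_nonneg fun n => S.Fn_re n hz hzE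

omit S in
lemma re_F0 {z : ℂ} (hz : z ∈ closedBall (0 : ℂ) 1) (hz1 : z ≠ 1) :
    1 / 2 ≤ ((1 - z)⁻¹).re := by
  rw [Complex.inv_re]
  have h1 : 0 < Complex.normSq (1 - z) := Complex.normSq_pos.2 (sub_ne_zero.2 hz1.symm)
  rw [le_div_iff₀ h1, Complex.normSq_apply]
  rw [mem_closedBall_zero_iff] at hz
  have h2 : ‖z‖ ^ 2 ≤ 1 := by nlinarith [norm_nonneg z]
  rw [← Complex.normSq_eq_norm_sq, Complex.normSq_apply] at h2
  simp only [Complex.sub_re, Complex.one_re, Complex.sub_im, Complex.one_im]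
  nlinarith

omit S in
lemma ne_one_of {z : ℂ} (hzE : z ∉ EE ζ) : z ≠ 1 := fun h => hzE (Or.inl h)

lemma FF_re {z : ℂ} (hz : z ∈ closedBall (0 : ℂ) 1) (hzE : z ∉ EE ζ) :
    1 / 2 ≤ (FF α η ζ z).re := by
  unfold FF
  rw [Complex.add_re]
  have h1 := re_F0 hz (ne_one_of hzE)
  have h2 := S.re_tsum_nonneg hz hzE
  linarith

lemma FF_ne {z : ℂ} (hz : z ∈ closedBall (0 : ℂ) 1) (hzE : z ∉ EE ζ) : FF α η ζ z ≠ 0 := by
  intro h
  have := S.FF_re hz hzE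
  rw [h] at this
  norm_num at this

lemma FF_re_ge (m : ι) {z : ℂ} (hz : z ∈ closedBall (0 : ℂ) 1) (hzE : z ∉ EE ζ) :
    (Fn α η ζ m z).re ≤ (FF α η ζ z).re := by
  unfold FF
  rw [Complex.add_re, Complex.re_tsum (S.summable_Fn' hz hzE)]
  have h1 := re_F0 hz (ne_one_of hzE)
  have h2 : (Fn α η ζ m z).re ≤ ∑' n, (Fn α η ζ n z).re := by
    have hs : Summable fun n => (Fn α η ζ n z).re :=
      (Complex.hasSum_re (S.summable_Fn' hz hzE).hasSum).summable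
    exact hs.le_tsum m (fun n _ => S.Fn_re n hz hzE)
  linarith

/-- an almost nearest point -/
lemma exists_near {z : ℂ} (hzE : z ∉ EE ζ) : ∃ m, ∀ n, ‖z - ζ m‖ ≤ 2 * ‖z - ζ n‖ := by
  have := S.ne'
  set I := ⨅ n, ‖z - ζ n‖ with hI
  have h1 : infDist z (EE ζ) ≤ I := le_ciInf fun n => infDist_le_n z n
  have h2 := S.infDist_pos hzE
  have h3 : I < 2 * I := by linarith
  obtain ⟨m, hm⟩ := exists_lt_of_ciInf_lt h3
  refine ⟨m, fun n => ?_⟩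
  have h4 : I ≤ ‖z - ζ n‖ := ciInf_le ⟨0, by rintro _ ⟨k, rfl⟩; exact norm_nonneg _⟩ n
  linarith

lemma rest_le {z : ℂ} (hz : z ∈ closedBall (0 : ℂ) 1) (hzE : z ∉ EE ζ) {m : ι}
    (hm : ∀ n, ‖z - ζ m‖ ≤ 2 * ‖z - ζ n‖) (t : Finset ι) (hmt : m ∉ t) :
    ∑ n ∈ t, ‖Fn α η ζ n z‖ ≤ 1 / 4 * ‖(1 - z)⁻¹‖ := by
  have hz1 : 0 < ‖1 - z‖ := norm_pos_iff.2 (sub_ne_zero.2 (ne_one_of hzE).symm)
  rw [norm_inv, ← div_eq_mul_inv, le_div_iff₀ hz1, Finset.sum_mul]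
  have key : ∀ n ∈ t, ‖Fn α η ζ n z‖ * ‖1 - z‖ ≤
      3 * η * (‖1 - ζ m‖ * (wt α ζ n / ‖ζ n - ζ m‖)) + 2 * η * wt α ζ n := by
    intro n hn
    have hnm : n ≠ m := fun h => hmt (h ▸ hn)
    have h0 : 0 < ‖ζ n - ζ m‖ := norm_pos_iff.2 (sub_ne_zero.2 fun h => hnm (S.inj h))
    have h1 := S.dist_pos n hzE
    have h2 : ‖ζ n - ζ m‖ ≤ 3 * ‖z - ζ n‖ := by
      calc ‖ζ n - ζ m‖ = ‖(z - ζ m) - (z - ζ n)‖ := by congr 1; ring
        _ ≤ ‖z - ζ m‖ + ‖z - ζ n‖ := norm_sub_le _ _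
        _ ≤ _ := by linarith [hm n]
    have h3 : ‖1 - z‖ ≤ ‖1 - ζ m‖ + 2 * ‖z - ζ n‖ := by
      calc ‖1 - z‖ = ‖(1 - ζ m) - (z - ζ m)‖ := by congr 1; ring
        _ ≤ ‖1 - ζ m‖ + ‖z - ζ m‖ := norm_sub_le _ _
        _ ≤ _ := by linarith [hm n]
    have h4 : ‖1 - z‖ / ‖z - ζ n‖ ≤ 3 * (‖1 - ζ m‖ / ‖ζ n - ζ m‖) + 2 := by
      rw [div_le_iff₀ h1]
      have h5 : ‖1 - ζ m‖ ≤ 3 * (‖1 - ζ m‖ / ‖ζ n - ζ m‖) * ‖z - ζ n‖ := by
        have : ‖1 - ζ m‖ = (‖1 - ζ m‖ / ‖ζ n - ζ m‖) * ‖ζ n - ζ m‖ := by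
          field_simp
        have h6 : 0 ≤ ‖1 - ζ m‖ / ‖ζ n - ζ m‖ := by positivity
        nlinarith [mul_le_mul_of_nonneg_left h2 h6]
      linarith
    have h5 := S.Fn_le n hz hzE
    have h6 := S.s_pos n
    calc ‖Fn α η ζ n z‖ * ‖1 - z‖ ≤ η * wt α ζ n / ‖z - ζ n‖ * ‖1 - z‖ :=
          mul_le_mul_of_nonneg_right h5 hz1.le
      _ = η * wt α ζ n * (‖1 - z‖ / ‖z - ζ n‖) := by ring
      _ ≤ η * wt α ζ n * (3 * (‖1 - ζ m‖ / ‖ζ n - ζ m‖) + 2) :=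
          mul_le_mul_of_nonneg_left h4 h6.le
      _ = _ := by ring
  refine (Finset.sum_le_sum key).trans ?_
  rw [Finset.sum_add_distrib, ← Finset.mul_sum, ← Finset.mul_sum, ← Finset.mul_sum]
  have h1 := S.sep m t hmt
  have h2 := S.tot t
  have h3 := S.hM
  have h4 := S.hη
  nlinarith [mul_le_mul_of_nonneg_left h1 h4.le, mul_le_mul_of_nonneg_left h2 h4.le]

end Sys

end Pool.Agent.P8H73.Pk
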